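import Pool.Agent.Helper10.SN.Key

/-!
# The one-block lemma
-/

namespace Pool.Agent.Helper10.SN

open Finset

/-- the values of `X` on level `l` -/
def slice (l : Bool) (X : Finset Pt) : Finset ℤ := (X.filter (fun x => x.1 = l)).image Prod.snd

lemma mem_slice (l : Bool) (X : Finset Pt) (c : ℤ) : c ∈ slice l X ↔ (l, c) ∈ X := by
  unfold slice
  simp only [Finset.mem_image, Finset.mem_filter, Prod.exists, exists_eq_right]

lemma slice_insert_self (l : Bool) (c : ℤ) (X : Finset Pt) :
    slice l (insert (l, c) X) = insert c (slice l X) := by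
  ext v
  rw [mem_slice, Finset.mem_insert, Finset.mem_insert, mem_slice]
  simp

lemma slice_insert_ne (l l' : Bool) (h : l' ≠ l) (c : ℤ) (X : Finset Pt) :
    slice l' (insert (l, c) X) = slice l' X := by
  ext v
  rw [mem_slice, Finset.mem_insert, mem_slice]
  simp [h]

lemma card_filter_slices (X : Finset Pt) (P : ℤ → Prop) [DecidablePred P] :
    (X.filter (fun x => P x.2)).card =
      ((slice false X).filter P).card + ((slice true X).filter P).card := by
  classical
  have h1 : ∀ l, ((slice l X).filter P).card = ((X.filter (fun x => P x.2)).filter (fun x => x.1 = l)).card := by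
    intro l
    have : (slice l X).filter P
        = ((X.filter (fun x => P x.2)).filter (fun x => x.1 = l)).image Prod.snd := by
      ext v
      rw [Finset.mem_filter, mem_slice]
      simp only [Finset.mem_image, Finset.mem_filter, Prod.exists, exists_eq_right]
    rw [this, Finset.card_image_of_injOn]
    rintro ⟨a, b⟩ h ⟨a', b'⟩ h' hh
    simp only [Finset.coe_filter, Finset.mem_filter, Set.mem_ofPred_eq] at h h' hh
    rw [Prod.mk.injEq]
    exact ⟨h.2.trans h'.2.symm, hh⟩
  rw [h1, h1, ← Finset.card_union_of_disjoint]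
  · congr 1
    ext ⟨a, b⟩
    simp only [Finset.mem_filter, Finset.mem_union]
    cases a <;> simp
  · rw [Finset.disjoint_left]
    intro x hx hx'
    rw [Finset.mem_filter] at hx hx'
    rw [hx.2] at hx'
    exact absurd hx'.2 (by simp)

variable {ι κ : Type*} [Fintype ι] [DecidableEq ι] [Fintype κ] [DecidableEq κ]

lemma cnt_ne_zero (α β : ι → ℤ) (C : Finset ℤ) (h : cnt α β C ≠ 0) :
    ∃ σ : Equiv.Perm ι, sumSet α β σ = C := by
  by_contra hcon
  push Not at hcon
  apply h
  unfold cnt
  apply Finset.sum_eq_zero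
  intro σ _
  rw [if_neg (hcon σ)]

/-- the two-layer count -/
def TT (α β : ι → ℤ) (α' β' : κ → ℤ) (X : Finset Pt) : ZMod 2 :=
  if (slice false X).card = Fintype.card ι ∧ (slice true X).card = Fintype.card κ then
    cnt α β (slice false X) * cnt α' β' (slice true X) else 0

lemma two_insert_card (C : Finset ℤ) (c s : ℤ) (hs : Odd s) (hc : Even c) (h1 : c ∉ C)
    (h2 : s - c ∉ C) : (insert c (insert (s - c) C)).card = C.card + 2 := by
  have hcs : c ≠ s - c := by
    intro h
    have : s = c + c := by linarith
    rw [this] at hs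
    exact (Int.not_even_iff_odd.2 hs) (Even.add_self c)
  rw [Finset.card_insert_of_notMem (by simp [hcs, h1]), Finset.card_insert_of_notMem h2]

lemma TT_rel (α β : ι → ℤ) (α' β' : κ → ℤ) (U : Finset Pt)
    (hU0 : ∀ i j, (false, α i + β j) ∈ U) (hU1 : ∀ i j, (true, α' i + β' j) ∈ U)
    (l : Bool) (X' : Finset Pt) (s : ℤ) (W : Finset ℤ) (hs : Odd s) (hW : ∀ x ∈ U, x.2 ∈ W) :
    ∑ c ∈ W.filter (fun c => Even c ∧ (l, c) ∉ X' ∧ (l, s - c) ∉ X'),
        TT α β α' β' (insert (l, c) (insert (l, s - c) X')) = 0 := by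
  classical
  have hfil : W.filter (fun c => Even c ∧ (l, c) ∉ X' ∧ (l, s - c) ∉ X')
      = W.filter (fun c => Even c ∧ c ∉ slice l X' ∧ s - c ∉ slice l X') := by
    apply Finset.filter_congr
    intro c _
    rw [mem_slice, mem_slice]
  rw [hfil]
  cases l
  · by_cases hcond : (slice false X').card + 2 = Fintype.card ι ∧ (slice true X').card = Fintype.card κ
    · have hterm : ∀ c ∈ W.filter (fun c => Even c ∧ c ∉ slice false X' ∧ s - c ∉ slice false X'),
          TT α β α' β' (insert (false, c) (insert (false, s - c) X'))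
            = cnt α β (insert c (insert (s - c) (slice false X'))) * cnt α' β' (slice true X') := by
        intro c hc
        rw [Finset.mem_filter] at hc
        unfold TT
        rw [slice_insert_self, slice_insert_self, slice_insert_ne _ _ (by simp),
          slice_insert_ne _ _ (by simp), if_pos]
        exact ⟨by rw [two_insert_card _ _ _ hs hc.2.1 hc.2.2.1 hc.2.2.2]; exact hcond.1, hcond.2⟩
      rw [Finset.sum_congr rfl hterm, ← Finset.sum_mul,
        rel α β (slice false X') hcond.1 s hs W (fun i j => hW _ (hU0 i j)), zero_mul]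
    · apply Finset.sum_eq_zero
      intro c hc
      rw [Finset.mem_filter] at hc
      unfold TT
      rw [slice_insert_self, slice_insert_self, slice_insert_ne _ _ (by simp),
          slice_insert_ne _ _ (by simp), if_neg]
      rw [two_insert_card _ _ _ hs hc.2.1 hc.2.2.1 hc.2.2.2]
      exact hcond
  · by_cases hcond : (slice false X').card = Fintype.card ι ∧ (slice true X').card + 2 = Fintype.card κ
    · have hterm : ∀ c ∈ W.filter (fun c => Even c ∧ c ∉ slice true X' ∧ s - c ∉ slice true X'),
          TT α β α' β' (insert (true, c) (insert (true, s - c) X'))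
            = cnt α β (slice false X') * cnt α' β' (insert c (insert (s - c) (slice true X'))) := by
        intro c hc
        rw [Finset.mem_filter] at hc
        unfold TT
        rw [slice_insert_self, slice_insert_self, slice_insert_ne _ _ (by simp),
          slice_insert_ne _ _ (by simp), if_pos]
        exact ⟨hcond.1, by rw [two_insert_card _ _ _ hs hc.2.1 hc.2.2.1 hc.2.2.2]; exact hcond.2⟩
      rw [Finset.sum_congr rfl hterm, ← Finset.mul_sum,
        rel α' β' (slice true X') hcond.2 s hs W (fun i j => hW _ (hU1 i j)), mul_zero]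
    · apply Finset.sum_eq_zero
      intro c hc
      rw [Finset.mem_filter] at hc
      unfold TT
      rw [slice_insert_self, slice_insert_self, slice_insert_ne _ _ (by simp),
          slice_insert_ne _ _ (by simp), if_neg]
      rw [two_insert_card _ _ _ hs hc.2.1 hc.2.2.1 hc.2.2.2]
      exact hcond

omit [DecidableEq ι] in
lemma injective_of_card (α β : ι → ℤ) (σ : Equiv.Perm ι) (h : (sumSet α β σ).card = Fintype.card ι) :
    Function.Injective (fun i => α i + β (σ i)) := by
  have : Set.InjOn (fun i => α i + β (σ i)) ((Finset.univ : Finset ι) : Set ι) := by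
    rw [← Finset.card_image_iff, Finset.card_univ]
    exact h
  rw [Finset.coe_univ] at this
  exact fun a b h => this (Set.mem_univ a) (Set.mem_univ b) h

/-- **One-block lemma.** -/
theorem one_block (α β : ι → ℤ) (α' β' : κ → ℤ) (C C' : Finset ℤ)
    (hC : C.card = Fintype.card ι) (hC' : C'.card = Fintype.card κ)
    (h : cnt α β C ≠ 0) (h' : cnt α' β' C' ≠ 0)
    (hD1 : (C.filter (fun c => Even c)).card + (C'.filter (fun c => Even c)).card
      ≤ (C.filter (fun c => ¬ Even c)).card + (C'.filter (fun c => ¬ Even c)).card + 1)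
    (hD2 : (C.filter (fun c => ¬ Even c)).card + (C'.filter (fun c => ¬ Even c)).card
      ≤ (C.filter (fun c => Even c)).card + (C'.filter (fun c => Even c)).card + 1) :
    ∃ (σ : Equiv.Perm ι) (τ : Equiv.Perm κ), Function.Injective (fun i => α i + β (σ i)) ∧
      Function.Injective (fun i => α' i + β' (τ i)) ∧
      ∀ i j, α i + β (σ i) ≠ α' j + β' (τ j) := by
  classical
  set U : Finset Pt := (Finset.univ.image (fun p : ι × ι => (false, α p.1 + β p.2))) ∪
    (Finset.univ.image (fun p : κ × κ => (true, α' p.1 + β' p.2))) with hUdef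
  have hU0 : ∀ i j, (false, α i + β j) ∈ U := by
    intro i j
    rw [hUdef, Finset.mem_union]
    left
    exact Finset.mem_image.2 ⟨(i, j), Finset.mem_univ _, rfl⟩
  have hU1 : ∀ i j, (true, α' i + β' j) ∈ U := by
    intro i j
    rw [hUdef, Finset.mem_union]
    right
    exact Finset.mem_image.2 ⟨(i, j), Finset.mem_univ _, rfl⟩
  have hTT : ∀ X, TT α β α' β' X ≠ 0 → (slice false X).card = Fintype.card ι ∧
      (slice true X).card = Fintype.card κ ∧ cnt α β (slice false X) ≠ 0 ∧
      cnt α' β' (slice true X) ≠ 0 := by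
    intro X hX
    unfold TT at hX
    by_cases hc : (slice false X).card = Fintype.card ι ∧ (slice true X).card = Fintype.card κ
    · rw [if_pos hc] at hX
      exact ⟨hc.1, hc.2, left_ne_zero_of_mul hX, right_ne_zero_of_mul hX⟩
    · rw [if_neg hc] at hX
      exact absurd rfl hX
  have hU : ∀ X, TT α β α' β' X ≠ 0 → X ⊆ U := by
    intro X hX
    obtain ⟨_, _, h1, h2⟩ := hTT X hX
    obtain ⟨σ, hσ⟩ := cnt_ne_zero _ _ _ h1
    obtain ⟨τ, hτ⟩ := cnt_ne_zero _ _ _ h2
    rintro ⟨l, c⟩ hlc
    rw [← mem_slice] at hlc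
    cases l
    · rw [← hσ, sumSet, Finset.mem_image] at hlc
      obtain ⟨i, _, rfl⟩ := hlc
      exact hU0 _ _
    · rw [← hτ, sumSet, Finset.mem_image] at hlc
      obtain ⟨i, _, rfl⟩ := hlc
      exact hU1 _ _
  set X0 : Finset Pt := C.image (fun c => (false, c)) ∪ C'.image (fun c => (true, c)) with hX0
  have s0 : slice false X0 = C := by
    ext v; rw [mem_slice, hX0]; simp
  have s1 : slice true X0 = C' := by
    ext v; rw [mem_slice, hX0]; simp
  have hT0 : TT α β α' β' X0 ≠ 0 := by
    unfold TT
    rw [s0, s1, if_pos ⟨hC, hC'⟩]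
    exact mul_ne_zero h h'
  have hE : ∀ X, (Ev X).card = ((slice false X).filter (fun c => Even c)).card +
      ((slice true X).filter (fun c => Even c)).card := fun X => card_filter_slices X _
  have hO : ∀ X, (Od X).card = ((slice false X).filter (fun c => ¬ Even c)).card +
      ((slice true X).filter (fun c => ¬ Even c)).card :=
    fun X => card_filter_slices X (fun c => ¬ Even c)
  obtain ⟨X, hX, _, _, hno⟩ := key (TT α β α' β') U hU
    (fun l X' s W hs hW => TT_rel α β α' β' U hU0 hU1 l X' s W hs hW) X0 hT0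
    (by rw [hE, hO, s0, s1]; exact hD1) (by rw [hE, hO, s0, s1]; exact hD2)
  obtain ⟨c1, c2, h1, h2⟩ := hTT X hX
  obtain ⟨σ, hσ⟩ := cnt_ne_zero _ _ _ h1
  obtain ⟨τ, hτ⟩ := cnt_ne_zero _ _ _ h2
  refine ⟨σ, τ, injective_of_card _ _ _ (by rw [hσ, c1]), injective_of_card _ _ _ (by rw [hτ, c2]), ?_⟩
  intro i j hij
  apply hno (α i + β (σ i))
  · rw [← mem_slice, ← hσ]
    exact Finset.mem_image_of_mem (fun i => α i + β (σ i)) (Finset.mem_univ i)
  · rw [← mem_slice, ← hτ, hij]
    exact Finset.mem_image_of_mem (fun j => α' j + β' (τ j)) (Finset.mem_univ j)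

/-- The sorted matching is the only one with its set of sums. -/
theorem cnt_sorted {ι : Type*} [Fintype ι] [LinearOrder ι] (α β : ι → ℤ) (hα : StrictMono α)
    (hβ : StrictMono β) : cnt α β (sumSet α β 1) ≠ 0 := by
  classical
  have huniq : ∀ σ : Equiv.Perm ι, sumSet α β σ = sumSet α β 1 → σ = 1 := by
    intro σ hσ
    have hinj1 : Function.Injective (fun i => α i + β ((1 : Equiv.Perm ι) i)) :=
      (hα.add hβ).injective
    have hcard1 : (sumSet α β 1).card = Fintype.card ι := by
      unfold sumSet; rw [Finset.card_image_of_injective _ hinj1, Finset.card_univ]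
    have hinj : Function.Injective (fun i => α i + β (σ i)) :=
      injective_of_card _ _ _ (by rw [hσ, hcard1])
    have hsq : ∑ i, (α i + β (σ i)) ^ 2 = ∑ i, (α i + β i) ^ 2 := by
      have e1 : ∑ c ∈ sumSet α β σ, c ^ 2 = ∑ i, (α i + β (σ i)) ^ 2 := by
        unfold sumSet; rw [Finset.sum_image (fun a _ b _ hab => hinj hab)]
      have e2 : ∑ c ∈ sumSet α β 1, c ^ 2 = ∑ i, (α i + β i) ^ 2 := by
        unfold sumSet; rw [Finset.sum_image (fun a _ b _ hab => hinj1 hab)]; rfl
      rw [← e1, ← e2, hσ]
    have hb2 : ∑ i, β (σ i) ^ 2 = ∑ i, β i ^ 2 := Equiv.sum_comp σ (fun i => β i ^ 2)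
    have hab : ∑ i, α i * β (σ i) = ∑ i, α i * β i := by
      have e1 : ∑ i, (α i + β (σ i)) ^ 2 = ∑ i, α i ^ 2 + 2 * ∑ i, α i * β (σ i) + ∑ i, β (σ i) ^ 2 := by
        rw [Finset.mul_sum, ← Finset.sum_add_distrib, ← Finset.sum_add_distrib]
        apply Finset.sum_congr rfl; intro i _; ring
      have e2 : ∑ i, (α i + β i) ^ 2 = ∑ i, α i ^ 2 + 2 * ∑ i, α i * β i + ∑ i, β i ^ 2 := by
        rw [Finset.mul_sum, ← Finset.sum_add_distrib, ← Finset.sum_add_distrib]
        apply Finset.sum_congr rfl; intro i _; ring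
      linarith
    have hmv : Monovary α β := hα.monotone.monovary hβ.monotone
    rw [hmv.sum_mul_comp_perm_eq_sum_mul_iff] at hab
    have hmono : StrictMono σ.symm := by
      intro a b hlt
      have : β (σ (σ.symm a)) < β (σ (σ.symm b)) := by simpa using hβ hlt
      have h2 := hab this
      rcases lt_or_eq_of_le (hα.le_iff_le.1 h2) with h3 | h3
      · exact h3
      · exact absurd (σ.symm.injective h3) (ne_of_lt hlt)
    have hmono' : StrictMono σ := by
      intro a b hlt
      by_contra hcon
      rcases lt_or_eq_of_le (not_lt.1 hcon) with h3 | h3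
      · have := hmono h3
        simp only [Equiv.symm_apply_apply] at this
        exact absurd this (not_lt.2 hlt.le)
      · exact absurd (σ.injective h3) (ne_of_gt hlt)
    ext x
    apply le_antisymm
    · have := hmono.le_apply (x := σ x)
      simpa using this
    · exact hmono'.le_apply
  unfold cnt
  rw [Finset.sum_eq_single 1]
  · simp
  · intro σ _ hσ
    rw [if_neg]
    intro h; exact hσ (huniq σ h)
  · intro h; exact absurd (Finset.mem_univ _) h

end Pool.Agent.Helper10.SN
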