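import Pool.Agent.Helper10.SN.Cyc

/-!
# Criteria for transversals in even cyclic groups
-/

namespace Pool.Agent.Helper10.SN

open Finset

/-- `(A, B)` has a transversal -/
def Trans {n : ℕ} (A B : Finset (ZMod n)) : Prop :=
  ∃ f : ZMod n → ZMod n, Set.BijOn f (A : Set (ZMod n)) (B : Set (ZMod n)) ∧
    Set.InjOn (fun a => a + f a) (A : Set (ZMod n))

/-- `(A, B)` has a transversal all of whose sums avoid `x` -/
def TransAvoid {n : ℕ} (A B : Finset (ZMod n)) (x : ZMod n) : Prop :=
  ∃ f : ZMod n → ZMod n, Set.BijOn f (A : Set (ZMod n)) (B : Set (ZMod n)) ∧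
    Set.InjOn (fun a => a + f a) (A : Set (ZMod n)) ∧ ∀ a ∈ A, a + f a ≠ x

/-- `α` is an increasing enumeration of the lifts of `A`. -/
structure Enum {n : ℕ} (A : Finset (ZMod n)) (k : ℕ) (α : ℤ → ℤ) : Prop where
  seq : CycSeq n k α
  bij : Set.BijOn (fun i => (α i : ZMod n)) (Finset.Ico (0 : ℤ) k) (A : Set (ZMod n))

lemma Enum.bij_window {n : ℕ} {A : Finset (ZMod n)} {k : ℕ} (hk : 0 < k) {α : ℤ → ℤ}
    (h : Enum A k α) (i0 : ℤ) :
    Set.BijOn (fun i => (α i : ZMod n)) (Finset.Ico i0 (i0 + k) : Finset ℤ) (A : Set (ZMod n)) := by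
  have hk' : (0 : ℤ) < k := by exact_mod_cast hk
  have hred : ∀ i : ℤ, (α i : ZMod n) = (α (i % k) : ZMod n) := by
    intro i
    have := h.seq.per_mul (i % k) (i / k)
    rw [show i % (k : ℤ) + i / (k : ℤ) * (k : ℤ) = i by
      have := Int.emod_add_mul_ediv i k; linarith] at this
    rw [this]; push_cast; simp
  refine ⟨?_, ?_, ?_⟩
  · intro i hi
    simp only
    rw [hred i]
    apply h.bij.mapsTo
    simp only [Finset.coe_Ico, Set.mem_Ico]
    exact ⟨Int.emod_nonneg _ hk'.ne', Int.emod_lt_of_pos _ hk'⟩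
  · intro i hi j hj hij
    simp only at hij
    rw [hred i, hred j] at hij
    have := h.bij.injOn (by
      simp only [Finset.coe_Ico, Set.mem_Ico]
      exact ⟨Int.emod_nonneg _ hk'.ne', Int.emod_lt_of_pos _ hk'⟩) (by
      simp only [Finset.coe_Ico, Set.mem_Ico]
      exact ⟨Int.emod_nonneg _ hk'.ne', Int.emod_lt_of_pos _ hk'⟩) hij
    simp only [Finset.coe_Ico, Set.mem_Ico] at hi hj
    have h1 : (k : ℤ) ∣ i - j := Int.ModEq.dvd (this.symm)
    obtain ⟨m, hm⟩ := h1
    have hm0 : m = 0 := by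
      by_contra hne
      rcases lt_or_gt_of_ne hne with h2 | h2
      · nlinarith
      · nlinarith
    rw [hm0] at hm
    linarith
  · intro a ha
    obtain ⟨i, hi, rfl⟩ := h.bij.surjOn ha
    simp only [Finset.coe_Ico, Set.mem_Ico] at hi
    -- the representative of `i` in the window
    refine ⟨i0 + (i - i0) % k, ?_, ?_⟩
    · simp only [Finset.coe_Ico, Set.mem_Ico]
      have e1 := Int.emod_nonneg (i - i0) hk'.ne'
      have e2 := Int.emod_lt_of_pos (i - i0) hk'
      constructor <;> linarith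
    · simp only
      have := h.seq.per_mul (i0 + (i - i0) % k) ((i - i0) / k)
      have e : i0 + (i - i0) % (k : ℤ) + (i - i0) / (k : ℤ) * (k : ℤ) = i := by
        have := Int.emod_add_mul_ediv (i - i0) k; linarith
      rw [e] at this
      rw [this]; push_cast; simp

lemma Enum.shift {n : ℕ} {A : Finset (ZMod n)} {k : ℕ} (hk : 0 < k) {α : ℤ → ℤ}
    (h : Enum A k α) (d : ℤ) : Enum A k (fun i => α (i + d)) := by
  refine ⟨h.seq.shift d, ?_⟩
  have := h.bij_window hk d
  refine ⟨?_, ?_, ?_⟩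
  · intro i hi
    simp only [Finset.coe_Ico, Set.mem_Ico] at hi
    apply this.mapsTo
    simp only [Finset.coe_Ico, Set.mem_Ico]
    constructor <;> linarith
  · intro i hi j hj hij
    simp only [Finset.coe_Ico, Set.mem_Ico] at hi hj
    have := this.injOn (by simp only [Finset.coe_Ico, Set.mem_Ico]; constructor <;> linarith)
      (by simp only [Finset.coe_Ico, Set.mem_Ico]; constructor <;> linarith) hij
    linarith
  · intro a ha
    obtain ⟨i, hi, rfl⟩ := this.surjOn ha
    simp only [Finset.coe_Ico, Set.mem_Ico] at hi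
    refine ⟨i - d, by simp only [Finset.coe_Ico, Set.mem_Ico]; constructor <;> linarith, ?_⟩
    simp

/-- Every nonempty subset of `ZMod n` has an increasing enumeration. -/
lemma exists_enum {n : ℕ} (hn : 0 < n) (A : Finset (ZMod n)) (hA : A.Nonempty) :
    ∃ α : ℤ → ℤ, Enum A A.card α := by
  classical
  haveI : NeZero n := ⟨hn.ne'⟩
  set k := A.card with hk
  have hk0 : 0 < k := Finset.card_pos.2 hA
  have hk' : (0 : ℤ) < k := by exact_mod_cast hk0
  set S : Finset ℤ := A.image (fun a => (a.val : ℤ)) with hS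
  have hinj : Function.Injective (fun a : ZMod n => (a.val : ℤ)) := by
    intro a b hab
    have hab' : (a.val : ℤ) = (b.val : ℤ) := hab
    exact ZMod.val_injective n (by exact_mod_cast hab')
  have hcard : S.card = k := by rw [hS, Finset.card_image_of_injective _ hinj]
  set e := S.orderEmbOfFin hcard with he
  have hrange : ∀ j : Fin k, 0 ≤ e j ∧ e j < n := by
    intro j
    have : e j ∈ S := Finset.orderEmbOfFin_mem S hcard j
    rw [hS, Finset.mem_image] at this
    obtain ⟨a, _, ha⟩ := this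
    rw [← ha]
    exact ⟨by positivity, by exact_mod_cast ZMod.val_lt a⟩
  have hmod : ∀ i : ℤ, (i % (k : ℤ)).toNat < k := by
    intro i
    have e1 := Int.emod_nonneg i hk'.ne'
    have e2 := Int.emod_lt_of_pos i hk'
    omega
  refine ⟨fun i => e ⟨(i % (k : ℤ)).toNat, hmod i⟩ + n * (i / (k : ℤ)), ⟨⟨?_, ?_⟩, ?_⟩⟩
  · intro i j hij
    simp only
    have q1 := Int.ediv_le_ediv hk' hij.le
    rcases lt_or_eq_of_le q1 with h | h
    · have r1 := (hrange ⟨(i % (k : ℤ)).toNat, hmod i⟩).2
      have r2 := (hrange ⟨(j % (k : ℤ)).toNat, hmod j⟩).1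
      have hn' : (0 : ℤ) < n := by exact_mod_cast hn
      nlinarith
    · have d1 := Int.emod_add_mul_ediv i (k : ℤ)
      have d2 := Int.emod_add_mul_ediv j (k : ℤ)
      have hlt : i % (k : ℤ) < j % (k : ℤ) := by rw [h] at d1; linarith
      have e1 := Int.emod_nonneg i hk'.ne'
      have : e ⟨(i % (k : ℤ)).toNat, hmod i⟩ < e ⟨(j % (k : ℤ)).toNat, hmod j⟩ := by
        apply e.strictMono
        rw [Fin.mk_lt_mk]
        omega
      rw [h]; linarith
  · intro i
    have h1 : (i + (k : ℤ)) % (k : ℤ) = i % (k : ℤ) := by simp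
    have h2 : (i + (k : ℤ)) / (k : ℤ) = i / (k : ℤ) + 1 := by
      have := Int.add_mul_ediv_right i 1 hk'.ne'
      rw [one_mul] at this
      exact this
    simp only [h1, h2]
    ring
  · have hval : ∀ i ∈ (Finset.Ico (0 : ℤ) k), ∃ h : i.toNat < k,
        (fun i => ((e ⟨(i % (k : ℤ)).toNat, hmod i⟩ + n * (i / (k : ℤ)) : ℤ) : ZMod n)) i
          = ((e ⟨i.toNat, h⟩ : ℤ) : ZMod n) := by
      intro i hi
      rw [Finset.mem_Ico] at hi
      refine ⟨by omega, ?_⟩
      have h1 : i % (k : ℤ) = i := Int.emod_eq_of_lt hi.1 hi.2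
      simp only [h1]
      push_cast
      simp
    have hback : ∀ j : Fin k, ∃ a ∈ A, ((e j : ℤ) : ZMod n) = a ∧ e j = (a.val : ℤ) := by
      intro j
      have : e j ∈ S := Finset.orderEmbOfFin_mem S hcard j
      rw [hS, Finset.mem_image] at this
      obtain ⟨a, ha, ha'⟩ := this
      refine ⟨a, ha, ?_, ha'.symm⟩
      rw [← ha']
      simp
    refine ⟨?_, ?_, ?_⟩
    · intro i hi
      obtain ⟨h, h'⟩ := hval i hi
      obtain ⟨a, ha, ha', _⟩ := hback ⟨i.toNat, h⟩
      simp only at h' ⊢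
      rw [h', ha']; exact ha
    · intro i hi j hj hij
      obtain ⟨h, h'⟩ := hval i hi
      obtain ⟨g, g'⟩ := hval j hj
      rw [h', g'] at hij
      obtain ⟨a, ha, ha', ha''⟩ := hback ⟨i.toNat, h⟩
      obtain ⟨b, hb, hb', hb''⟩ := hback ⟨j.toNat, g⟩
      rw [ha', hb'] at hij
      rw [hij] at ha''
      have := e.injective (ha''.trans hb''.symm)
      rw [Fin.mk.injEq] at this
      simp only [Finset.coe_Ico, Set.mem_Ico] at hi hj
      omega
    · intro a ha
      have hm : ((a.val : ℕ) : ℤ) ∈ S := by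
        rw [hS]; exact Finset.mem_image_of_mem (fun a : ZMod n => (a.val : ℤ)) ha
      have hr : ((a.val : ℕ) : ℤ) ∈ Set.range e := by
        rw [he, Finset.range_orderEmbOfFin]; exact hm
      obtain ⟨j, hj⟩ := hr
      refine ⟨(j.val : ℤ), ?_, ?_⟩
      · simp only [Finset.coe_Ico, Set.mem_Ico]
        exact ⟨by positivity, by exact_mod_cast j.2⟩
      · obtain ⟨h, h'⟩ := hval (j.val : ℤ) (by
          rw [Finset.mem_Ico]; exact ⟨by positivity, by exact_mod_cast j.2⟩)
        rw [h']
        have : (⟨((j.val : ℤ)).toNat, h⟩ : Fin k) = j := by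
          apply Fin.ext; simp
        rw [this, hj]
        simp

/-- **Block criterion**. -/
theorem trans_of_blocks {n k : ℕ} (hn : Even n) (hn0 : 0 < n) (hk : 0 < k) (A B : Finset (ZMod n))
    {α β : ℤ → ℤ} (hA : Enum A k α) (hB : Enum B k β) (i0 : ℤ) (t : ℕ → ℤ) (ht : Monotone t)
    (r : ℕ) (htr : t r = t 0 + n)
    (hwin : ∀ i ∈ Finset.Ico i0 (i0 + k), t 0 ≤ α i + β i ∧ α i + β i < t 0 + 2 * n)
    (hD : ∀ j < r, |∑ i ∈ (Finset.Ico i0 (i0 + k)).filter (fun i =>
      (t j ≤ α i + β i ∧ α i + β i < t (j + 1)) ∨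
      (t j + n ≤ α i + β i ∧ α i + β i < t (j + 1) + n)), chi (α i + β i)| ≤ 1) :
    Trans A B := by
  obtain ⟨σ, s1, s2, s3, s4⟩ := cyc_blocks hn hn0 i0 hA.seq.mono hB.seq.mono t ht r htr hwin hD
  have hσ : Set.BijOn σ (Finset.Ico i0 (i0 + k) : Finset ℤ) (Finset.Ico i0 (i0 + k) : Finset ℤ) := by
    refine ⟨fun i hi => s1 i hi, σ.injective.injOn, ?_⟩
    exact Finset.surjOn_of_injOn_of_card_le _ (fun i hi => s1 i hi) σ.injective.injOn le_rfl
  obtain ⟨f, hf1, hf2, _⟩ := transfer hn0 _ α β A B (hA.bij_window hk i0) (hB.bij_window hk i0) σ hσ s4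
  exact ⟨f, hf1, hf2⟩

/-- **Single block**: an alignment whose parity discrepancy is at most one. -/
theorem trans_of_chi {n k : ℕ} (hn : Even n) (hn0 : 0 < n) (hk : 0 < k) (A B : Finset (ZMod n))
    {α β : ℤ → ℤ} (hA : Enum A k α) (hB : Enum B k β)
    (hD : |∑ i ∈ Finset.Ico (0 : ℤ) k, chi (α i + β i)| ≤ 1) : Trans A B := by
  obtain ⟨i0, h1, _, h2⟩ := exists_start hn0 hA.seq hB.seq (α 0 + β 0)
  have hper : ∀ i, chi (α (i + k) + β (i + k)) = chi (α i + β i) := by
    intro i
    rw [hA.seq.per, hB.seq.per]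
    unfold chi
    have : Even (α i + n + (β i + n)) ↔ Even (α i + β i) := by
      rw [show α i + n + (β i + n) = (α i + β i) + 2 * n by ring, Int.even_add]
      simp
    simp only [this]
  refine trans_of_blocks hn hn0 hk A B hA hB i0
    (fun j => if j = 0 then α 0 + β 0 else α 0 + β 0 + n) ?_ 1 ?_ ?_ ?_
  · apply monotone_nat_of_le_succ
    intro j
    by_cases hj : j = 0
    · simp [hj]
    · simp [hj]
  · simp
  · simpa using h2
  · intro j hj
    have hj0 : j = 0 := by omega
    subst hj0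
    rw [Finset.filter_true_of_mem, sum_window (fun i => chi (α i + β i)) hper]
    · exact hD
    · intro i hi
      have := h2 i hi
      simp only [if_true, Nat.zero_add, one_ne_zero, if_false]
      by_cases h : α i + β i < α 0 + β 0 + n
      · left; exact ⟨this.1, h⟩
      · right; exact ⟨not_lt.1 h, by linarith [this.2]⟩

/-- **Single block avoiding a residue**. -/
theorem transAvoid_of_chi {n k : ℕ} (hn : Even n) (hn0 : 0 < n) (hk : 0 < k) (A B : Finset (ZMod n))
    {α β : ℤ → ℤ} (hA : Enum A k α) (hB : Enum B k β)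
    (hD : |∑ i ∈ Finset.Ico (0 : ℤ) k, chi (α i + β i)| ≤ 1) (x : ℤ)
    (hx : ∀ i, ¬ (n : ℤ) ∣ (α i + β i) - x) : TransAvoid A B (x : ZMod n) := by
  obtain ⟨i0, h1, _, h2⟩ := exists_start hn0 hA.seq hB.seq x
  have hn1 : (1 : ℤ) ≤ n := by exact_mod_cast hn0
  have hper : ∀ i, chi (α (i + k) + β (i + k)) = chi (α i + β i) := by
    intro i
    rw [hA.seq.per, hB.seq.per]
    unfold chi
    have : Even (α i + n + (β i + n)) ↔ Even (α i + β i) := by
      rw [show α i + n + (β i + n) = (α i + β i) + 2 * n by ring, Int.even_add]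
      simp
    simp only [this]
  have hx0 : ∀ i, α i + β i ≠ x := by
    intro i h; apply hx i; rw [h, sub_self]; exact dvd_zero _
  have hxn : ∀ i, α i + β i ≠ x + n := by
    intro i h; apply hx i; rw [h, add_sub_cancel_left]
  set t : ℕ → ℤ := fun j => if j = 0 then x else if j = 1 then x + 1 else x + n with ht
  have t0 : t 0 = x := by simp [ht]
  have t1 : t 1 = x + 1 := by simp [ht]
  have t2 : t 2 = x + n := by simp [ht]
  obtain ⟨σ, s1, s2, s3, s4⟩ := cyc_blocks (k := k) hn hn0 i0 hA.seq.mono hB.seq.mono t (by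
      apply monotone_nat_of_le_succ
      intro j
      rcases Nat.lt_or_ge j 2 with hj | hj
      · interval_cases j
        · rw [t0, t1]; omega
        · rw [t1, t2]; omega
      · simp only [ht]
        rw [if_neg (by omega), if_neg (by omega), if_neg (by omega), if_neg (by omega)]) 2
    (by rw [t2, t0]) (by rw [t0]; exact h2) (by
      intro j hj
      interval_cases j
      · rw [Finset.filter_false_of_mem]
        · simp
        · intro i hi
          have := h2 i hi
          rw [t0, t1]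
          rintro (⟨_, h⟩ | ⟨h, h'⟩)
          · exact hx0 i (by omega)
          · exact hxn i (by omega)
      · rw [Finset.filter_true_of_mem, sum_window (fun i => chi (α i + β i)) hper]
        · exact hD
        · intro i hi
          have := h2 i hi
          rw [t1, t2]
          have g1 := hx0 i
          have g2 := hxn i
          omega)
  have hσ : Set.BijOn σ (Finset.Ico i0 (i0 + k) : Finset ℤ) (Finset.Ico i0 (i0 + k) : Finset ℤ) := by
    refine ⟨fun i hi => s1 i hi, σ.injective.injOn, ?_⟩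
    exact Finset.surjOn_of_injOn_of_card_le _ (fun i hi => s1 i hi) σ.injective.injOn le_rfl
  obtain ⟨f, hf1, hf2, hf3⟩ := transfer hn0 _ α β A B (hA.bij_window hk i0) (hB.bij_window hk i0) σ hσ s4
  refine ⟨f, hf1, hf2, ?_⟩
  intro a ha hax
  obtain ⟨i, hi, rfl⟩ := (hA.bij_window hk i0).surjOn ha
  simp only at hax
  rw [hf3 i hi] at hax
  have hdvd : (n : ℤ) ∣ (α i + β (σ i)) - x := by
    rw [← ZMod.intCast_zmod_eq_zero_iff_dvd]
    push_cast
    rw [hax, sub_self]
  have hw := h2 i hi
  have g1 := hx0 i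
  have g2 := hxn i
  by_cases hlow : α i + β i < x + n
  · have h3 := s2 1 (by omega) i hi (by rw [t1, t2]; omega)
    rw [t1, t2] at h3
    obtain ⟨m, hm⟩ := hdvd
    have : 0 < n * m ∧ (n : ℤ) * m < n := by constructor <;> linarith
    rcases le_or_gt m 0 with h | h
    · nlinarith
    · nlinarith
  · have h3 := s3 1 (by omega) i hi (by rw [t1, t2]; omega)
    rw [t1, t2] at h3
    obtain ⟨m, hm⟩ := hdvd
    have : (n : ℤ) < n * m ∧ (n : ℤ) * m < n + n := by constructor <;> linarith
    rcases le_or_gt m 1 with h | h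
    · nlinarith
    · nlinarith

/-- **Block criterion avoiding a residue**: the circle is cut at `x`, which is not a sorted sum. -/
theorem transAvoid_of_blocks {n k : ℕ} (hn : Even n) (hn0 : 0 < n) (hk : 0 < k)
    (A B : Finset (ZMod n)) {α β : ℤ → ℤ} (hA : Enum A k α) (hB : Enum B k β) (i0 : ℤ) (t : ℕ → ℤ)
    (ht : Monotone t) (r : ℕ) (htr : t r = t 0 + n) (t1 : t 1 = t 0 + 1) (hr : 1 ≤ r)
    (hwin : ∀ i ∈ Finset.Ico i0 (i0 + k), t 0 ≤ α i + β i ∧ α i + β i < t 0 + 2 * n)
    (hx : ∀ i, ¬ (n : ℤ) ∣ (α i + β i) - t 0)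
    (hD : ∀ j < r, |∑ i ∈ (Finset.Ico i0 (i0 + k)).filter (fun i =>
      (t j ≤ α i + β i ∧ α i + β i < t (j + 1)) ∨
      (t j + n ≤ α i + β i ∧ α i + β i < t (j + 1) + n)), chi (α i + β i)| ≤ 1) :
    TransAvoid A B ((t 0 : ℤ) : ZMod n) := by
  have hx0 : ∀ i, α i + β i ≠ t 0 := by
    intro i h; apply hx i; rw [h, sub_self]; exact dvd_zero _
  have hxn : ∀ i, α i + β i ≠ t 0 + n := by
    intro i h; apply hx i; rw [h, add_sub_cancel_left]
  obtain ⟨σ, s1, s2, s3, s4⟩ := cyc_blocks hn hn0 i0 hA.seq.mono hB.seq.mono t ht r htr hwin hD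
  have hσ : Set.BijOn σ (Finset.Ico i0 (i0 + k) : Finset ℤ) (Finset.Ico i0 (i0 + k) : Finset ℤ) := by
    refine ⟨fun i hi => s1 i hi, σ.injective.injOn, ?_⟩
    exact Finset.surjOn_of_injOn_of_card_le _ (fun i hi => s1 i hi) σ.injective.injOn le_rfl
  obtain ⟨f, hf1, hf2, hf3⟩ := transfer hn0 _ α β A B (hA.bij_window hk i0) (hB.bij_window hk i0) σ hσ s4
  refine ⟨f, hf1, hf2, ?_⟩
  intro a ha hax
  obtain ⟨i, hi, rfl⟩ := (hA.bij_window hk i0).surjOn ha
  simp only at hax
  rw [hf3 i hi] at hax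
  have hdvd : (n : ℤ) ∣ (α i + β (σ i)) - t 0 := by
    rw [← ZMod.intCast_zmod_eq_zero_iff_dvd]
    push_cast
    rw [hax, sub_self]
  have hw := hwin i hi
  have g1 := hx0 i
  have g2 := hxn i
  -- find the block of `i`
  have hfind : ∀ y : ℤ, t 0 + 1 ≤ y → y < t 0 + n → ∃ j, 1 ≤ j ∧ j < r ∧ t j ≤ y ∧ y < t (j + 1) := by
    intro y hy1 hy2
    classical
    have hex : ∃ j, y < t (j + 1) := ⟨r, by
      have : t r ≤ t (r + 1) := ht (Nat.le_succ r)
      rw [htr] at this
      linarith⟩
    refine ⟨Nat.find hex, ?_, ?_, ?_, Nat.find_spec hex⟩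
    · by_contra h
      have h0 : Nat.find hex = 0 := by omega
      have := Nat.find_spec hex
      rw [h0, Nat.zero_add, t1] at this
      linarith
    · have hlt : y < t ((r - 1) + 1) := by
        rw [Nat.sub_add_cancel hr, htr]; exact hy2
      have := Nat.find_min' hex hlt
      omega
    · by_contra h
      have h1 : 1 ≤ Nat.find hex := by
        by_contra h
        have h0 : Nat.find hex = 0 := by omega
        have := Nat.find_spec hex
        rw [h0, Nat.zero_add, t1] at this
        linarith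
      have := Nat.find_min hex (show Nat.find hex - 1 < Nat.find hex by omega)
      rw [Nat.sub_add_cancel h1] at this
      exact this (not_le.1 h)
  by_cases hlow : α i + β i < t 0 + n
  · obtain ⟨j, j1, j2, j3, j4⟩ := hfind (α i + β i) (by omega) hlow
    have h3 := s2 j j2 i hi ⟨j3, j4⟩
    have e1 : t 1 ≤ t j := ht j1
    have e2 : t (j + 1) ≤ t r := ht j2
    rw [t1] at e1
    rw [htr] at e2
    obtain ⟨m, hm⟩ := hdvd
    have : 0 < n * m ∧ (n : ℤ) * m < n := by constructor <;> linarith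
    rcases le_or_gt m 0 with h | h
    · nlinarith
    · nlinarith
  · obtain ⟨j, j1, j2, j3, j4⟩ := hfind (α i + β i - n) (by omega) (by omega)
    have h3 := s3 j j2 i hi ⟨by linarith, by linarith⟩
    have e1 : t 1 ≤ t j := ht j1
    have e2 : t (j + 1) ≤ t r := ht j2
    rw [t1] at e1
    rw [htr] at e2
    obtain ⟨m, hm⟩ := hdvd
    have : (n : ℤ) < n * m ∧ (n : ℤ) * m < n + n := by constructor <;> linarith
    rcases le_or_gt m 1 with h | h
    · nlinarith
    · nlinarith

/-- Adding one cell. -/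
theorem trans_of_avoid {n : ℕ} (A B : Finset (ZMod n)) (a b : ZMod n) (ha : a ∈ A) (hb : b ∈ B)
    (h : TransAvoid (A.erase a) (B.erase b) (a + b)) : Trans A B := by
  classical
  obtain ⟨f, hf1, hf2, hf3⟩ := h
  refine ⟨Function.update f a b, ?_, ?_⟩
  · refine ⟨?_, ?_, ?_⟩
    · intro x hx
      by_cases hxa : x = a
      · rw [hxa, Function.update_self]; exact hb
      · rw [Function.update_of_ne hxa]
        exact Finset.mem_of_mem_erase (hf1.mapsTo (Finset.mem_erase.2 ⟨hxa, hx⟩))
    · intro x hx y hy hxy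
      by_cases hxa : x = a
      · by_cases hya : y = a
        · rw [hxa, hya]
        · rw [hxa, Function.update_self, Function.update_of_ne hya] at hxy
          have := hf1.mapsTo (Finset.mem_erase.2 ⟨hya, hy⟩)
          exact absurd hxy.symm (Finset.ne_of_mem_erase this)
      · by_cases hya : y = a
        · rw [hya, Function.update_self, Function.update_of_ne hxa] at hxy
          have := hf1.mapsTo (Finset.mem_erase.2 ⟨hxa, hx⟩)
          exact absurd hxy (Finset.ne_of_mem_erase this)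
        · rw [Function.update_of_ne hxa, Function.update_of_ne hya] at hxy
          exact hf1.injOn (Finset.mem_erase.2 ⟨hxa, hx⟩) (Finset.mem_erase.2 ⟨hya, hy⟩) hxy
    · intro y hy
      by_cases hyb : y = b
      · exact ⟨a, ha, by rw [Function.update_self, hyb]⟩
      · obtain ⟨x, hx, hx'⟩ := hf1.surjOn (Finset.mem_erase.2 ⟨hyb, hy⟩)
        have hx2 := Finset.mem_erase.1 hx
        exact ⟨x, hx2.2, by rw [Function.update_of_ne hx2.1, hx']⟩
  · intro x hx y hy hxy
    simp only at hxy
    by_cases hxa : x = a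
    · by_cases hya : y = a
      · rw [hxa, hya]
      · rw [hxa, Function.update_self, Function.update_of_ne hya] at hxy
        exact absurd hxy.symm (hf3 y (Finset.mem_erase.2 ⟨hya, hy⟩))
    · by_cases hya : y = a
      · rw [hya, Function.update_self, Function.update_of_ne hxa] at hxy
        exact absurd hxy (hf3 x (Finset.mem_erase.2 ⟨hxa, hx⟩))
      · rw [Function.update_of_ne hxa, Function.update_of_ne hya] at hxy
        exact hf2 (Finset.mem_erase.2 ⟨hxa, hx⟩) (Finset.mem_erase.2 ⟨hya, hy⟩) hxy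

end Pool.Agent.Helper10.SN
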