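import Pool.Agent.Helper10.SN.Glue

/-!
# Cyclic sequences and transversals
-/

namespace Pool.Agent.Helper10.SN

open Finset

/-- a strictly increasing sequence of integers with `a (i + k) = a i + n` -/
structure CycSeq (n k : ℕ) (α : ℤ → ℤ) : Prop where
  mono : StrictMono α
  per : ∀ i, α (i + k) = α i + n

lemma CycSeq.shift {n k : ℕ} {α : ℤ → ℤ} (h : CycSeq n k α) (d : ℤ) :
    CycSeq n k (fun i => α (i + d)) := by
  refine ⟨fun i j hij => h.mono (by linarith), fun i => ?_⟩
  show α (i + k + d) = α (i + d) + n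
  rw [show i + k + d = i + d + k by ring, h.per]

lemma CycSeq.per_mul {n k : ℕ} {α : ℤ → ℤ} (h : CycSeq n k α) (i m : ℤ) :
    α (i + m * k) = α i + m * n := by
  induction m using Int.induction_on with
  | zero => simp
  | succ m ih =>
    rw [show i + ((m : ℤ) + 1) * k = (i + m * k) + k by ring, h.per, ih]; ring
  | pred m ih =>
    have h1 := h.per (i + (-(m : ℤ) - 1) * k)
    rw [show i + (-(m : ℤ) - 1) * k + k = i + (-(m : ℤ)) * k by ring, ih] at h1
    linarith

/-- the sorted sums of two cyclic sequences -/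
lemma exists_start {n k : ℕ} (hn : 0 < n) {α β : ℤ → ℤ} (hα : CycSeq n k α) (hβ : CycSeq n k β)
    (s : ℤ) : ∃ i0 : ℤ, s ≤ α i0 + β i0 ∧ (∀ i < i0, α i + β i < s) ∧
      ∀ i ∈ Finset.Ico i0 (i0 + k), s ≤ α i + β i ∧ α i + β i < s + 2 * n := by
  have hm : StrictMono (fun i => α i + β i) := hα.mono.add hβ.mono
  have hbd : ∃ b : ℤ, ∀ z : ℤ, s ≤ α z + β z → b ≤ z := by
    refine ⟨-(|s - (α 0 + β 0)|) , fun z hz => ?_⟩
    by_contra hcon
    push Not at hcon
    -- α z + β z ≤ α 0 + β 0 + z for z ≤ 0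
    have hz0 : z < 0 := lt_of_lt_of_le hcon (by simp)
    have key : ∀ m : ℕ, (α (-(m : ℤ)) + β (-(m : ℤ))) ≤ α 0 + β 0 - m := by
      intro m
      induction m with
      | zero => simp
      | succ m ih =>
        have := hm (show -((m + 1 : ℕ) : ℤ) < -(m : ℤ) by push_cast; omega)
        simp only at this
        push_cast at *
        linarith
    have h1 := key z.natAbs
    rw [show -((z.natAbs : ℕ) : ℤ) = z by omega] at h1
    have h2 : ((z.natAbs : ℕ) : ℤ) = - z := by omega
    rw [h2] at h1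
    have h3 : -(|s - (α 0 + β 0)|) ≤ s - (α 0 + β 0) := neg_abs_le _
    linarith
  have hinh : ∃ z : ℤ, s ≤ α z + β z := by
    refine ⟨|s - (α 0 + β 0)|, ?_⟩
    have key : ∀ m : ℕ, α 0 + β 0 + m ≤ (α (m : ℤ) + β (m : ℤ)) := by
      intro m
      induction m with
      | zero => simp
      | succ m ih =>
        have := hm (show (m : ℤ) < ((m + 1 : ℕ) : ℤ) by push_cast; omega)
        simp only at this
        push_cast at *
        linarith
    have h1 := key (s - (α 0 + β 0)).natAbs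
    rw [Int.natCast_natAbs] at h1
    have h3 : s - (α 0 + β 0) ≤ |s - (α 0 + β 0)| := le_abs_self _
    linarith
  obtain ⟨i0, h1, h2⟩ := Int.exists_least_of_bdd hbd hinh
  have h3 : ∀ i < i0, α i + β i < s := by
    intro i hi
    by_contra hcon
    have := h2 i (not_lt.1 hcon)
    omega
  refine ⟨i0, h1, h3, ?_⟩
  intro i hi
  rw [Finset.mem_Ico] at hi
  constructor
  · exact le_trans h1 (hm.monotone hi.1)
  · have h4 := h3 (i - k) (by omega)
    have e1 := hα.per (i - k)
    have e2 := hβ.per (i - k)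
    rw [sub_add_cancel] at e1 e2
    rw [e1, e2]
    linarith

/-- The sum of a periodic function over a window of length `k` does not depend on the window. -/
lemma sum_window {k : ℕ} (g : ℤ → ℤ) (hg : ∀ i, g (i + k) = g i) (i0 : ℤ) :
    ∑ i ∈ Finset.Ico i0 (i0 + k), g i = ∑ i ∈ Finset.Ico (0 : ℤ) k, g i := by
  have step : ∀ j : ℤ, ∑ i ∈ Finset.Ico (j + 1) (j + 1 + k), g i = ∑ i ∈ Finset.Ico j (j + k), g i := by
    intro j
    rcases Nat.eq_zero_or_pos k with hk | hk
    · subst hk; simp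
    · have h1 : Finset.Ico j (j + k) = insert j (Finset.Ico (j + 1) (j + k)) := by
        ext x; simp only [Finset.mem_Ico, Finset.mem_insert]; omega
      have h2 : Finset.Ico (j + 1) (j + 1 + k) = insert (j + k) (Finset.Ico (j + 1) (j + k)) := by
        ext x; simp only [Finset.mem_Ico, Finset.mem_insert]; omega
      rw [h1, h2, Finset.sum_insert (by simp), Finset.sum_insert (by simp), hg]
  induction i0 using Int.induction_on with
  | zero => simp
  | succ m ih => rw [step, ih]
  | pred m ih =>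
    have := step (-(m : ℤ) - 1)
    rw [sub_add_cancel] at this
    rw [← this, ih]

/-- **Block criterion for cyclic sequences**. -/
theorem cyc_blocks {n k : ℕ} (hn : Even n) (hn0 : 0 < n) {α β : ℤ → ℤ} (i0 : ℤ)
    (hα : StrictMono α) (hβ : StrictMono β) (t : ℕ → ℤ) (ht : Monotone t) (r : ℕ)
    (htr : t r = t 0 + n)
    (hwin : ∀ i ∈ Finset.Ico i0 (i0 + k), t 0 ≤ α i + β i ∧ α i + β i < t 0 + 2 * n)
    (hD : ∀ j < r, |∑ i ∈ (Finset.Ico i0 (i0 + k)).filter (fun i =>
      (t j ≤ α i + β i ∧ α i + β i < t (j + 1)) ∨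
      (t j + n ≤ α i + β i ∧ α i + β i < t (j + 1) + n)), chi (α i + β i)| ≤ 1) :
    ∃ σ : Equiv.Perm ℤ,
      (∀ i ∈ Finset.Ico i0 (i0 + k), σ i ∈ Finset.Ico i0 (i0 + k)) ∧
      (∀ j < r, ∀ i ∈ Finset.Ico i0 (i0 + k), (t j ≤ α i + β i ∧ α i + β i < t (j + 1)) →
        (t j ≤ α i + β (σ i) ∧ α i + β (σ i) < t (j + 1))) ∧
      (∀ j < r, ∀ i ∈ Finset.Ico i0 (i0 + k), (t j + n ≤ α i + β i ∧ α i + β i < t (j + 1) + n) →
        (t j + n ≤ α i + β (σ i) ∧ α i + β (σ i) < t (j + 1) + n)) ∧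
      (∀ i ∈ Finset.Ico i0 (i0 + k), ∀ j ∈ Finset.Ico i0 (i0 + k),
        (n : ℤ) ∣ (α i + β (σ i)) - (α j + β (σ j)) → i = j) := by
  classical
  set I := Finset.Ico i0 (i0 + k) with hI
  have hn' : Even (n : ℤ) := by exact_mod_cast hn
  have hn0' : (0 : ℤ) < n := by exact_mod_cast hn0
  have hall : ∀ i ∈ I, i ∈ rowL α β I (t 0) (t r) ∪ rowL α β I (t 0 + n) (t r + n) := by
    intro i hi
    have := hwin i hi
    unfold rowL
    rw [Finset.mem_union, Finset.mem_filter, Finset.mem_filter, htr]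
    by_cases h : α i + β i < t 0 + n
    · left; exact ⟨hi, this.1, h⟩
    · right; exact ⟨hi, not_lt.1 h, by linarith [this.2]⟩
  obtain ⟨σ, s1, s2, s3, s5, s6, s4⟩ := blocks_perm n hn' hn0' α β I (hα.strictMonoOn _)
    (hβ.strictMonoOn _) t ht r (le_of_eq htr) (by
      intro j hj
      have := hD j hj
      rw [Finset.filter_or, Finset.sum_union] at this
      · exact this
      · rw [Finset.disjoint_left]
        intro i hi hi'
        rw [Finset.mem_filter] at hi hi'
        have e1 : t (j + 1) ≤ t r := ht hj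
        have e2 : t 0 ≤ t j := ht (Nat.zero_le j)
        omega)
  have hull : ∀ u v i j, i ∈ rowL α β I u v → j ∈ rowL α β I u v →
      u ≤ α i + β j ∧ α i + β j < v := by
    intro u v i j hi hj
    unfold rowL at hi hj
    rw [Finset.mem_filter] at hi hj
    rcases le_total i j with h | h
    · have e1 := hα.monotone h
      have e2 := hβ.monotone h
      constructor <;> linarith [hi.2.1, hi.2.2, hj.2.1, hj.2.2]
    · have e1 := hα.monotone h
      have e2 := hβ.monotone h
      constructor <;> linarith [hi.2.1, hi.2.2, hj.2.1, hj.2.2]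
  refine ⟨σ, ?_, ?_, ?_, ?_⟩
  · intro i hi
    have := hall i hi
    rw [Finset.mem_union] at this
    rcases this with h | h
    · exact (Finset.mem_filter.1 (s5 i h)).1
    · exact (Finset.mem_filter.1 (s6 i h)).1
  · intro j hj i hi h
    have hm : i ∈ rowL α β I (t j) (t (j + 1)) := Finset.mem_filter.2 ⟨hi, h⟩
    exact hull _ _ _ _ hm (s2 j hj i hm)
  · intro j hj i hi h
    have hm : i ∈ rowL α β I (t j + n) (t (j + 1) + n) := Finset.mem_filter.2 ⟨hi, h⟩
    exact hull _ _ _ _ hm (s3 j hj i hm)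
  · intro i hi j hj hd
    exact s4 i (hall i hi) j (hall j hj) hd

/-- Transfer to a bijection between subsets of `ZMod n`. -/
theorem transfer {n : ℕ} (hn : 0 < n) {ι : Type*} (I : Finset ι) (α β : ι → ℤ)
    (A B : Finset (ZMod n)) (hA : Set.BijOn (fun i => (α i : ZMod n)) I A)
    (hB : Set.BijOn (fun i => (β i : ZMod n)) I B) (σ : ι → ι) (hσ : Set.BijOn σ I I)
    (hinj : ∀ i ∈ I, ∀ j ∈ I, (n : ℤ) ∣ (α i + β (σ i)) - (α j + β (σ j)) → i = j) :
    ∃ f : ZMod n → ZMod n, Set.BijOn f (A : Set (ZMod n)) (B : Set (ZMod n)) ∧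
      Set.InjOn (fun a => a + f a) (A : Set (ZMod n)) ∧
      ∀ i ∈ I, f (α i : ZMod n) = (β (σ i) : ZMod n) := by
  classical
  rcases I.eq_empty_or_nonempty with rfl | ⟨i₀, hi₀⟩
  · refine ⟨id, ?_, ?_, ?_⟩
    · have hA' : (A : Set (ZMod n)) = ∅ := by
        have := hA.image_eq; simpa using this.symm
      have hB' : (B : Set (ZMod n)) = ∅ := by
        have := hB.image_eq; simpa using this.symm
      rw [hA', hB']; exact Set.bijOn_empty _
    · have hA' : (A : Set (ZMod n)) = ∅ := by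
        have := hA.image_eq; simpa using this.symm
      rw [hA']; exact Set.injOn_empty _
    · intro i hi; exact absurd hi (Finset.notMem_empty i)
  · haveI : Nonempty ι := ⟨i₀⟩
    set g := Function.invFunOn (fun i => (α i : ZMod n)) (I : Set ι) with hg
    have hgl : ∀ i ∈ I, g (α i : ZMod n) = i := fun i hi => hA.injOn.leftInvOn_invFunOn hi
    have hfe : ∀ i ∈ I, (β (σ (g (α i : ZMod n))) : ZMod n) = (β (σ i) : ZMod n) := by
      intro i hi; rw [hgl i hi]
    refine ⟨fun a => (β (σ (g a)) : ZMod n), ?_, ?_, hfe⟩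
    · refine ⟨?_, ?_, ?_⟩
      · intro a ha
        obtain ⟨i, hi, rfl⟩ := hA.surjOn ha
        simp only
        rw [hfe i hi]
        exact hB.mapsTo (hσ.mapsTo hi)
      · intro a ha a' ha' h
        obtain ⟨i, hi, rfl⟩ := hA.surjOn ha
        obtain ⟨i', hi', rfl⟩ := hA.surjOn ha'
        simp only at h
        rw [hfe i hi, hfe i' hi'] at h
        have := hσ.injOn hi hi' (hB.injOn (hσ.mapsTo hi) (hσ.mapsTo hi') h)
        rw [this]
      · intro b hb
        obtain ⟨j, hj, rfl⟩ := hB.surjOn hb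
        obtain ⟨i, hi, rfl⟩ := hσ.surjOn hj
        exact ⟨(α i : ZMod n), hA.mapsTo hi, hfe i hi⟩
    · intro a ha a' ha' h
      obtain ⟨i, hi, rfl⟩ := hA.surjOn ha
      obtain ⟨i', hi', rfl⟩ := hA.surjOn ha'
      simp only at h
      rw [hfe i hi, hfe i' hi'] at h
      have : i = i' := by
        apply hinj i hi i' hi'
        rw [← ZMod.intCast_zmod_eq_zero_iff_dvd]
        push_cast
        rw [h, sub_self]
      rw [this]

end Pool.Agent.Helper10.SN
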