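import Pool.Agent.Helper10.SN.Block

/-!
# Block criterion for a sorted matching
-/

namespace Pool.Agent.Helper10.SN

open Finset

/-- parity sign -/
def chi (c : ℤ) : ℤ := if Even c then 1 else -1

lemma sum_chi (S : Finset ℤ) (x : ℤ → ℤ) : ∑ i ∈ S, chi (x i) =
    ((S.filter (fun i => Even (x i))).card : ℤ) - ((S.filter (fun i => ¬ Even (x i))).card : ℤ) := by
  unfold chi
  rw [Finset.sum_ite]
  simp
  ring

/-- One block, indexed by two disjoint finite sets of integers. -/
theorem block_perm (n : ℤ) (hn : Even n) (α β : ℤ → ℤ) (L H : Finset ℤ)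
    (hLH : Disjoint L H)
    (hαL : StrictMonoOn α L) (hβL : StrictMonoOn β L) (hαH : StrictMonoOn α H)
    (hβH : StrictMonoOn β H)
    (hD : |(∑ i ∈ L, chi (α i + β i)) + ∑ i ∈ H, chi (α i + β i)| ≤ 1) :
    ∃ σ : Equiv.Perm ℤ, (∀ i, i ∉ L → i ∉ H → σ i = i) ∧ (∀ i ∈ L, σ i ∈ L) ∧ (∀ i ∈ H, σ i ∈ H) ∧
      (∀ i ∈ L, ∀ j ∈ L, α i + β (σ i) = α j + β (σ j) → i = j) ∧
      (∀ i ∈ H, ∀ j ∈ H, α i + β (σ i) = α j + β (σ j) → i = j) ∧
      (∀ i ∈ L, ∀ j ∈ H, α i + β (σ i) ≠ α j + β (σ j) - n) := by
  classical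
  set a : L → ℤ := fun i => α i with ha
  set b : L → ℤ := fun i => β i with hb
  set a' : H → ℤ := fun i => α i with ha'
  set b' : H → ℤ := fun i => β i - n with hb'
  have sa : StrictMono a := fun i j hij => hαL i.2 j.2 hij
  have sb : StrictMono b := fun i j hij => hβL i.2 j.2 hij
  have sa' : StrictMono a' := fun i j hij => hαH i.2 j.2 hij
  have sb' : StrictMono b' := fun i j hij => sub_lt_sub_right (hβH i.2 j.2 hij) n
  have h1 := cnt_sorted a b sa sb
  have h2 := cnt_sorted a' b' sa' sb'
  have i1 : Function.Injective (fun i => a i + b ((1 : Equiv.Perm L) i)) := (sa.add sb).injective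
  have i2 : Function.Injective (fun i => a' i + b' ((1 : Equiv.Perm H) i)) := (sa'.add sb').injective
  have c1 : (sumSet a b 1).card = Fintype.card L := by
    unfold sumSet; rw [Finset.card_image_of_injective _ i1, Finset.card_univ]
  have c2 : (sumSet a' b' 1).card = Fintype.card H := by
    unfold sumSet; rw [Finset.card_image_of_injective _ i2, Finset.card_univ]
  have f1 : ∀ (P : ℤ → Prop) [DecidablePred P], ((sumSet a b 1).filter P).card =
      (L.filter (fun i => P (α i + β i))).card := by
    intro P _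
    unfold sumSet
    rw [Finset.filter_image, Finset.card_image_of_injective _ i1]
    rw [← Finset.card_map (Function.Embedding.subtype (fun i => i ∈ L))]
    congr 1
    ext i
    simp only [Finset.mem_map, Finset.mem_filter, Finset.mem_univ, true_and,
      Function.Embedding.subtype_apply, Subtype.exists, exists_and_left, exists_prop, ha, hb,
      Equiv.Perm.coe_one, id]
    constructor
    · rintro ⟨j, hp, hj, rfl⟩; exact ⟨hj, hp⟩
    · rintro ⟨hi, hp⟩; exact ⟨i, hp, hi, rfl⟩
  have f2 : ∀ (P : ℤ → Prop) [DecidablePred P], (∀ c, P (c - n) ↔ P c) →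
      ((sumSet a' b' 1).filter P).card = (H.filter (fun i => P (α i + β i))).card := by
    intro P _ hP
    unfold sumSet
    rw [Finset.filter_image, Finset.card_image_of_injective _ i2]
    rw [← Finset.card_map (Function.Embedding.subtype (fun i => i ∈ H))]
    congr 1
    ext i
    simp only [Finset.mem_map, Finset.mem_filter, Finset.mem_univ, true_and,
      Function.Embedding.subtype_apply, Subtype.exists, exists_and_left, exists_prop, ha', hb',
      Equiv.Perm.coe_one, id]
    constructor
    · rintro ⟨j, hp, hj, rfl⟩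
      refine ⟨hj, ?_⟩
      rw [← hP, show α j + β j - n = α j + (β j - n) by ring]; exact hp
    · rintro ⟨hi, hp⟩
      refine ⟨i, ?_, hi, rfl⟩
      rw [← hP, show α i + β i - n = α i + (β i - n) by ring] at hp; exact hp
  have pE : ∀ c : ℤ, Even (c - n) ↔ Even c := by
    intro c
    rw [Int.even_sub]; simp [hn]
  have pO : ∀ c : ℤ, ¬ Even (c - n) ↔ ¬ Even c := fun c => not_congr (pE c)
  rw [sum_chi, sum_chi, abs_le] at hD
  obtain ⟨σ, τ, hσ, hτ, hdis⟩ := one_block a b a' b' _ _ c1 c2 h1 h2
    (by rw [f1 (fun c => Even c), f1 (fun c => ¬ Even c), f2 (fun c => Even c) pE,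
          f2 (fun c => ¬ Even c) pO]; omega)
    (by rw [f1 (fun c => Even c), f1 (fun c => ¬ Even c), f2 (fun c => Even c) pE,
          f2 (fun c => ¬ Even c) pO]; omega)
  have oL : ∀ i (hi : i ∈ L), (Equiv.Perm.ofSubtype σ * Equiv.Perm.ofSubtype τ) i = σ ⟨i, hi⟩ := by
    intro i hi
    rw [Equiv.Perm.mul_apply, Equiv.Perm.ofSubtype_apply_of_not_mem τ
      (fun h => Finset.disjoint_left.1 hLH hi h)]
    exact Equiv.Perm.ofSubtype_apply_of_mem σ hi
  have oH : ∀ i (hi : i ∈ H), (Equiv.Perm.ofSubtype σ * Equiv.Perm.ofSubtype τ) i = τ ⟨i, hi⟩ := by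
    intro i hi
    rw [Equiv.Perm.mul_apply, Equiv.Perm.ofSubtype_apply_of_mem τ hi]
    exact Equiv.Perm.ofSubtype_apply_of_not_mem σ
      (fun h => Finset.disjoint_left.1 hLH h (τ ⟨i, hi⟩).2)
  refine ⟨Equiv.Perm.ofSubtype σ * Equiv.Perm.ofSubtype τ, ?_, ?_, ?_, ?_, ?_, ?_⟩
  · intro i hi hi'
    rw [Equiv.Perm.mul_apply, Equiv.Perm.ofSubtype_apply_of_not_mem τ hi',
      Equiv.Perm.ofSubtype_apply_of_not_mem σ hi]
  · intro i hi; rw [oL i hi]; exact (σ ⟨i, hi⟩).2
  · intro i hi; rw [oH i hi]; exact (τ ⟨i, hi⟩).2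
  · intro i hi j hj h
    rw [oL i hi, oL j hj] at h
    have := hσ (show a ⟨i, hi⟩ + b (σ ⟨i, hi⟩) = a ⟨j, hj⟩ + b (σ ⟨j, hj⟩) from h)
    exact congrArg Subtype.val this
  · intro i hi j hj h
    rw [oH i hi, oH j hj] at h
    have := hτ (show a' ⟨i, hi⟩ + b' (τ ⟨i, hi⟩) = a' ⟨j, hj⟩ + b' (τ ⟨j, hj⟩) by
      simp only [ha', hb']; linarith)
    exact congrArg Subtype.val this
  · intro i hi j hj h
    rw [oL i hi, oH j hj] at h
    exact hdis ⟨i, hi⟩ ⟨j, hj⟩ (by simp only [ha, hb, ha', hb']; linarith)

/-- low row of the block `[u, v)` -/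
def rowL (α β : ℤ → ℤ) (I : Finset ℤ) (u v : ℤ) : Finset ℤ :=
  I.filter (fun i => u ≤ α i + β i ∧ α i + β i < v)

/-- The inductive statement: indices with sorted sum in `[u,v)` or `[u+n,v+n)`. -/
theorem blocks_perm (n : ℤ) (hn : Even n) (hn0 : 0 < n) (α β : ℤ → ℤ) (I : Finset ℤ)
    (hα : StrictMonoOn α I) (hβ : StrictMonoOn β I) (t : ℕ → ℤ) (ht : Monotone t) (r : ℕ)
    (htr : t r ≤ t 0 + n)
    (hD : ∀ j < r, |(∑ i ∈ rowL α β I (t j) (t (j + 1)), chi (α i + β i)) +
      ∑ i ∈ rowL α β I (t j + n) (t (j + 1) + n), chi (α i + β i)| ≤ 1) :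
    ∃ σ : Equiv.Perm ℤ,
      (∀ i, i ∉ rowL α β I (t 0) (t r) → i ∉ rowL α β I (t 0 + n) (t r + n) → σ i = i) ∧
      (∀ j < r, ∀ i ∈ rowL α β I (t j) (t (j + 1)), σ i ∈ rowL α β I (t j) (t (j + 1))) ∧
      (∀ j < r, ∀ i ∈ rowL α β I (t j + n) (t (j + 1) + n),
        σ i ∈ rowL α β I (t j + n) (t (j + 1) + n)) ∧
      (∀ i ∈ rowL α β I (t 0) (t r), σ i ∈ rowL α β I (t 0) (t r)) ∧
      (∀ i ∈ rowL α β I (t 0 + n) (t r + n), σ i ∈ rowL α β I (t 0 + n) (t r + n)) ∧
      (∀ i ∈ rowL α β I (t 0) (t r) ∪ rowL α β I (t 0 + n) (t r + n),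
        ∀ j ∈ rowL α β I (t 0) (t r) ∪ rowL α β I (t 0 + n) (t r + n),
        n ∣ (α i + β (σ i)) - (α j + β (σ j)) → i = j) := by
  classical
  -- hull property
  have hull : ∀ u v i j, i ∈ rowL α β I u v → j ∈ rowL α β I u v →
      u ≤ α i + β j ∧ α i + β j < v := by
    intro u v i j hi hj
    unfold rowL at hi hj
    rw [Finset.mem_filter] at hi hj
    rcases le_total i j with h | h
    · have e1 := (hα.le_iff_le hi.1 hj.1).2 h
      have e2 := (hβ.le_iff_le hi.1 hj.1).2 h
      constructor <;> linarith [hi.2.1, hi.2.2, hj.2.1, hj.2.2]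
    · have e1 := (hα.le_iff_le hj.1 hi.1).2 h
      have e2 := (hβ.le_iff_le hj.1 hi.1).2 h
      constructor <;> linarith [hi.2.1, hi.2.2, hj.2.1, hj.2.2]
  induction r with
  | zero =>
    refine ⟨1, fun i _ _ => rfl, fun j hj => absurd hj (by omega), fun j hj => absurd hj (by omega),
      fun i hi => hi, fun i hi => hi, ?_⟩
    intro i hi
    exfalso
    unfold rowL at hi
    rw [Finset.mem_union, Finset.mem_filter, Finset.mem_filter] at hi
    rcases hi with h | h
    · omega
    · omega
  | succ r ih =>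
    have htr' : t r ≤ t (r + 1) := ht (Nat.le_succ r)
    obtain ⟨σ, s1, s2, s3, s5, s6, s4⟩ := ih (le_trans htr' htr) (fun j hj => hD j (by omega))
    have hdis : Disjoint (rowL α β I (t r) (t (r + 1))) (rowL α β I (t r + n) (t (r + 1) + n)) := by
      rw [Finset.disjoint_left]
      intro i hi hi'
      unfold rowL at hi hi'
      rw [Finset.mem_filter] at hi hi'
      have : t 0 ≤ t r := ht (Nat.zero_le r)
      omega
    have hsub : ∀ u v, (rowL α β I u v : Set ℤ) ⊆ I := by
      intro u v i hi
      exact (Finset.mem_filter.1 hi).1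
    obtain ⟨τ, q1, q2, q3, q4, q5, q6⟩ := block_perm n hn α β _ _ hdis
      (hα.mono (hsub _ _)) (hβ.mono (hsub _ _)) (hα.mono (hsub _ _)) (hβ.mono (hsub _ _))
      (hD r (by omega))
    have h0r : t 0 ≤ t r := ht (Nat.zero_le r)
    -- the old rows and the new rows are disjoint
    have old_new : ∀ i, i ∈ rowL α β I (t 0) (t r) ∪ rowL α β I (t 0 + n) (t r + n) →
        i ∉ rowL α β I (t r) (t (r + 1)) ∧ i ∉ rowL α β I (t r + n) (t (r + 1) + n) := by
      intro i hi
      unfold rowL at hi ⊢
      rw [Finset.mem_union, Finset.mem_filter, Finset.mem_filter] at hi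
      rw [Finset.mem_filter, Finset.mem_filter]
      constructor
      · intro h; rcases hi with h' | h' <;> omega
      · intro h; rcases hi with h' | h' <;> omega
    have new_old : ∀ i, i ∈ rowL α β I (t r) (t (r + 1)) ∪ rowL α β I (t r + n) (t (r + 1) + n) →
        i ∉ rowL α β I (t 0) (t r) ∧ i ∉ rowL α β I (t 0 + n) (t r + n) := by
      intro i hi
      constructor
      · intro h
        have := old_new i (Finset.mem_union_left _ h)
        rw [Finset.mem_union] at hi
        rcases hi with h' | h'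
        · exact this.1 h'
        · exact this.2 h'
      · intro h
        have := old_new i (Finset.mem_union_right _ h)
        rw [Finset.mem_union] at hi
        rcases hi with h' | h'
        · exact this.1 h'
        · exact this.2 h'
    have mem_old : ∀ j < r, ∀ i, i ∈ rowL α β I (t j) (t (j + 1)) → i ∈ rowL α β I (t 0) (t r) := by
      intro j hj i hi
      unfold rowL at hi ⊢
      rw [Finset.mem_filter] at hi ⊢
      have e1 : t 0 ≤ t j := ht (Nat.zero_le j)
      have e2 : t (j + 1) ≤ t r := ht hj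
      exact ⟨hi.1, by omega, by omega⟩
    have mem_old' : ∀ j < r, ∀ i, i ∈ rowL α β I (t j + n) (t (j + 1) + n) →
        i ∈ rowL α β I (t 0 + n) (t r + n) := by
      intro j hj i hi
      unfold rowL at hi ⊢
      rw [Finset.mem_filter] at hi ⊢
      have e1 : t 0 ≤ t j := ht (Nat.zero_le j)
      have e2 : t (j + 1) ≤ t r := ht hj
      exact ⟨hi.1, by omega, by omega⟩
    -- the permutation
    have pOld : ∀ i, i ∉ rowL α β I (t r) (t (r + 1)) → i ∉ rowL α β I (t r + n) (t (r + 1) + n) →
        (σ * τ) i = σ i := by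
      intro i h1 h2
      rw [Equiv.Perm.mul_apply, q1 i h1 h2]
    have pNew : ∀ i, i ∈ rowL α β I (t r) (t (r + 1)) ∪ rowL α β I (t r + n) (t (r + 1) + n) →
        (σ * τ) i = τ i := by
      intro i hi
      have hτi : τ i ∈ rowL α β I (t r) (t (r + 1)) ∪ rowL α β I (t r + n) (t (r + 1) + n) := by
        rw [Finset.mem_union] at hi ⊢
        rcases hi with h | h
        · left; exact q2 i h
        · right; exact q3 i h
      have := new_old _ hτi
      rw [Equiv.Perm.mul_apply, s1 _ this.1 this.2]
    have split : ∀ i, (i ∈ rowL α β I (t 0) (t (r + 1)) ↔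
        (i ∈ rowL α β I (t 0) (t r) ∨ i ∈ rowL α β I (t r) (t (r + 1)))) := by
      intro i
      unfold rowL
      rw [Finset.mem_filter, Finset.mem_filter, Finset.mem_filter]
      constructor
      · rintro ⟨h, h1, h2⟩
        by_cases h3 : α i + β i < t r
        · left; exact ⟨h, h1, h3⟩
        · right; exact ⟨h, by omega, h2⟩
      · rintro (⟨h, h1, h2⟩ | ⟨h, h1, h2⟩)
        · exact ⟨h, h1, by omega⟩
        · exact ⟨h, by omega, h2⟩
    have split' : ∀ i, (i ∈ rowL α β I (t 0 + n) (t (r + 1) + n) ↔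
        (i ∈ rowL α β I (t 0 + n) (t r + n) ∨ i ∈ rowL α β I (t r + n) (t (r + 1) + n))) := by
      intro i
      unfold rowL
      rw [Finset.mem_filter, Finset.mem_filter, Finset.mem_filter]
      constructor
      · rintro ⟨h, h1, h2⟩
        by_cases h3 : α i + β i < t r + n
        · left; exact ⟨h, h1, h3⟩
        · right; exact ⟨h, by omega, h2⟩
      · rintro (⟨h, h1, h2⟩ | ⟨h, h1, h2⟩)
        · exact ⟨h, h1, by omega⟩
        · exact ⟨h, by omega, h2⟩
    have pOldL : ∀ i ∈ rowL α β I (t 0) (t r), (σ * τ) i = σ i := by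
      intro i hi
      have := old_new i (Finset.mem_union_left _ hi)
      exact pOld i this.1 this.2
    have pOldH : ∀ i ∈ rowL α β I (t 0 + n) (t r + n), (σ * τ) i = σ i := by
      intro i hi
      have := old_new i (Finset.mem_union_right _ hi)
      exact pOld i this.1 this.2
    refine ⟨σ * τ, ?_, ?_, ?_, ?_, ?_, ?_⟩
    · intro i h1 h2
      rw [split] at h1
      rw [split'] at h2
      push Not at h1 h2
      rw [pOld i h1.2 h2.2]
      exact s1 i h1.1 h2.1
    · intro j hj i hi
      rcases Nat.lt_succ_iff_lt_or_eq.1 hj with h | rfl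
      · rw [pOldL i (mem_old j h i hi)]; exact s2 j h i hi
      · rw [pNew i (Finset.mem_union_left _ hi)]; exact q2 i hi
    · intro j hj i hi
      rcases Nat.lt_succ_iff_lt_or_eq.1 hj with h | rfl
      · rw [pOldH i (mem_old' j h i hi)]; exact s3 j h i hi
      · rw [pNew i (Finset.mem_union_right _ hi)]; exact q3 i hi
    · intro i hi
      rw [split] at hi ⊢
      rcases hi with h | h
      · left; rw [pOldL i h]; exact s5 i h
      · right; rw [pNew i (Finset.mem_union_left _ h)]; exact q2 i h
    · intro i hi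
      rw [split'] at hi ⊢
      rcases hi with h | h
      · left; rw [pOldH i h]; exact s6 i h
      · right; rw [pNew i (Finset.mem_union_right _ h)]; exact q3 i h
    · -- locate every sum
      have loc : ∀ i ∈ rowL α β I (t 0) (t (r + 1)) ∪ rowL α β I (t 0 + n) (t (r + 1) + n),
          (i ∈ rowL α β I (t 0) (t r) ∧ t 0 ≤ α i + β ((σ * τ) i) ∧ α i + β ((σ * τ) i) < t r) ∨
          (i ∈ rowL α β I (t 0 + n) (t r + n) ∧ t 0 + n ≤ α i + β ((σ * τ) i) ∧
            α i + β ((σ * τ) i) < t r + n) ∨
          (i ∈ rowL α β I (t r) (t (r + 1)) ∧ t r ≤ α i + β ((σ * τ) i) ∧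
            α i + β ((σ * τ) i) < t (r + 1)) ∨
          (i ∈ rowL α β I (t r + n) (t (r + 1) + n) ∧ t r + n ≤ α i + β ((σ * τ) i) ∧
            α i + β ((σ * τ) i) < t (r + 1) + n) := by
        intro i hi
        rw [Finset.mem_union, split, split'] at hi
        rcases hi with (h | h) | (h | h)
        · left
          refine ⟨h, ?_⟩
          rw [pOldL i h]; exact hull _ _ _ _ h (s5 i h)
        · right; right; left
          refine ⟨h, ?_⟩
          rw [pNew i (Finset.mem_union_left _ h)]; exact hull _ _ _ _ h (q2 i h)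
        · right; left
          refine ⟨h, ?_⟩
          rw [pOldH i h]; exact hull _ _ _ _ h (s6 i h)
        · right; right; right
          refine ⟨h, ?_⟩
          rw [pNew i (Finset.mem_union_right _ h)]; exact hull _ _ _ _ h (q3 i h)
      have dvd0 : ∀ x : ℤ, n ∣ x → -n < x → x < n → x = 0 := by
        intro x hx h1 h2
        obtain ⟨m, rfl⟩ := hx
        have : m = 0 := by
          by_contra hm
          rcases lt_or_gt_of_ne hm with h | h
          · nlinarith
          · nlinarith
        rw [this]; ring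
      have dvd1 : ∀ x : ℤ, n ∣ x → 0 < x → x < 2 * n → x = n := by
        intro x hx h1 h2
        have : n ∣ x - n := Dvd.dvd.sub hx (dvd_refl n)
        have := dvd0 (x - n) this (by linarith) (by linarith)
        linarith
      intro i hi j hj hd
      have li := loc i hi
      have lj := loc j hj
      rcases li with ⟨mi, ai, bi⟩ | ⟨mi, ai, bi⟩ | ⟨mi, ai, bi⟩ | ⟨mi, ai, bi⟩ <;>
      rcases lj with ⟨mj, aj, bj⟩ | ⟨mj, aj, bj⟩ | ⟨mj, aj, bj⟩ | ⟨mj, aj, bj⟩
      · -- old L, old L
        rw [pOldL i mi, pOldL j mj] at hd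
        exact s4 i (Finset.mem_union_left _ mi) j (Finset.mem_union_left _ mj) hd
      · rw [pOldL i mi, pOldH j mj] at hd
        exact s4 i (Finset.mem_union_left _ mi) j (Finset.mem_union_right _ mj) hd
      · exfalso
        have := dvd0 _ hd (by linarith) (by linarith)
        linarith
      · exfalso
        have h2 : n ∣ (α j + β ((σ * τ) j)) - (α i + β ((σ * τ) i)) := by
          rw [← neg_sub]; exact (dvd_neg).2 hd
        have := dvd1 _ h2 (by linarith) (by linarith)
        linarith
      · rw [pOldH i mi, pOldL j mj] at hd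
        exact s4 i (Finset.mem_union_right _ mi) j (Finset.mem_union_left _ mj) hd
      · rw [pOldH i mi, pOldH j mj] at hd
        exact s4 i (Finset.mem_union_right _ mi) j (Finset.mem_union_right _ mj) hd
      · exfalso
        have h1 : 0 < (α i + β ((σ * τ) i)) - (α j + β ((σ * τ) j)) ∨
          (α i + β ((σ * τ) i)) - (α j + β ((σ * τ) j)) ≤ 0 := by omega
        rcases h1 with h1 | h1
        · have := dvd1 _ hd h1 (by linarith)
          linarith
        · have := dvd0 _ hd (by linarith) (by linarith)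
          linarith
      · exfalso
        have := dvd0 _ hd (by linarith) (by linarith)
        linarith
      · exfalso
        have := dvd0 _ hd (by linarith) (by linarith)
        linarith
      · exfalso
        have h2 : n ∣ (α j + β ((σ * τ) j)) - (α i + β ((σ * τ) i)) := by
          rw [← neg_sub]; exact (dvd_neg).2 hd
        have h1 : 0 < (α j + β ((σ * τ) j)) - (α i + β ((σ * τ) i)) ∨
          (α j + β ((σ * τ) j)) - (α i + β ((σ * τ) i)) ≤ 0 := by omega
        rcases h1 with h1 | h1
        · have := dvd1 _ h2 h1 (by linarith)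
          linarith
        · have := dvd0 _ h2 (by linarith) (by linarith)
          linarith
      · have e := dvd0 _ hd (by linarith) (by linarith)
        rw [pNew i (Finset.mem_union_left _ mi), pNew j (Finset.mem_union_left _ mj)] at e
        exact q4 i mi j mj (by linarith)
      · exfalso
        have h2 : n ∣ (α j + β ((σ * τ) j)) - (α i + β ((σ * τ) i)) := by
          rw [← neg_sub]; exact (dvd_neg).2 hd
        have e := dvd1 _ h2 (by linarith) (by linarith)
        rw [pNew i (Finset.mem_union_left _ mi), pNew j (Finset.mem_union_right _ mj)] at e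
        exact q6 i mi j mj (by linarith)
      · exfalso
        have := dvd1 _ hd (by linarith) (by linarith)
        linarith
      · exfalso
        have := dvd0 _ hd (by linarith) (by linarith)
        linarith
      · exfalso
        have e := dvd1 _ hd (by linarith) (by linarith)
        rw [pNew i (Finset.mem_union_right _ mi), pNew j (Finset.mem_union_left _ mj)] at e
        exact q6 j mj i mi (by linarith)
      · have e := dvd0 _ hd (by linarith) (by linarith)
        rw [pNew i (Finset.mem_union_right _ mi), pNew j (Finset.mem_union_right _ mj)] at e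
        exact q5 i mi j mj (by linarith)

end Pool.Agent.Helper10.SN
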