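import Mathlib

/-!
# Relations between the numbers (mod 2) of bijections with a given sum set
-/

namespace Pool.Agent.Helper10.SN

open Finset

variable {ι : Type*} [Fintype ι] [DecidableEq ι]

/-- The set of sums of the permutation `σ`. -/
def sumSet (α β : ι → ℤ) (σ : Equiv.Perm ι) : Finset ℤ :=
  Finset.univ.image (fun i => α i + β (σ i))

/-- Number (mod 2) of permutations with sum set `C`. -/
def cnt (α β : ι → ℤ) (C : Finset ℤ) : ZMod 2 :=
  ∑ σ : Equiv.Perm ι, if sumSet α β σ = C then 1 else 0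

/-- marked triples -/
def Mark (α β : ι → ℤ) (C' : Finset ℤ) (s : ℤ) (x : Equiv.Perm ι × ι × ι) : Prop :=
  x.2.1 ≠ x.2.2 ∧
  (((Finset.univ.erase x.2.1).erase x.2.2).image (fun i => α i + β (x.1 i))) = C' ∧
  Even (α x.2.1 + β (x.1 x.2.1)) ∧
  (α x.2.1 + β (x.1 x.2.1)) + (α x.2.2 + β (x.1 x.2.2)) = s

instance (α β : ι → ℤ) (C' : Finset ℤ) (s : ℤ) : DecidablePred (Mark α β C' s) := by
  intro x; unfold Mark; infer_instance

lemma zmod2_two : (1 : ZMod 2) + 1 = 0 := by decide

/-- exchange of the partners of the marked rows -/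
def exch (α β : ι → ℤ) (x : Equiv.Perm ι × ι × ι) : Equiv.Perm ι × ι × ι :=
  if Even (α x.2.1 + β (x.1 x.2.2)) then (x.1 * Equiv.swap x.2.1 x.2.2, x.2.1, x.2.2)
    else (x.1 * Equiv.swap x.2.1 x.2.2, x.2.2, x.2.1)

omit [Fintype ι] in
lemma exch_pos (α β : ι → ℤ) (σ : Equiv.Perm ι) (i j : ι) (h : Even (α i + β (σ j))) :
    exch α β (σ, i, j) = (σ * Equiv.swap i j, i, j) := if_pos h

omit [Fintype ι] in
lemma exch_neg (α β : ι → ℤ) (σ : Equiv.Perm ι) (i j : ι) (h : ¬ Even (α i + β (σ j))) :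
    exch α β (σ, i, j) = (σ * Equiv.swap i j, j, i) := if_neg h

lemma exch_mark (α β : ι → ℤ) (C' : Finset ℤ) (s : ℤ) (hs : Odd s) (σ : Equiv.Perm ι) (i j : ι)
    (hx : Mark α β C' s (σ, i, j)) : Mark α β C' s (exch α β (σ, i, j)) := by
  obtain ⟨hij, him, hev, hsum⟩ := hx
  simp only at hij him hev hsum
  have himg : ∀ (p q : ι), (p = i ∧ q = j) ∨ (p = j ∧ q = i) →
      (((Finset.univ.erase p).erase q).image (fun l => α l + β ((σ * Equiv.swap i j) l))) = C' := by
    intro p q hpq
    rw [← him]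
    have hset : ((Finset.univ : Finset ι).erase p).erase q
        = ((Finset.univ : Finset ι).erase i).erase j := by
      rcases hpq with ⟨rfl, rfl⟩ | ⟨rfl, rfl⟩
      · rfl
      · exact Finset.erase_right_comm
    rw [hset]
    apply Finset.image_congr
    intro l hl
    have hl' : ¬ l = i ∧ ¬ l = j := by
      simpa using hl
    simp only [Equiv.Perm.coe_mul, Function.comp]
    rw [Equiv.swap_apply_of_ne_of_ne hl'.1 hl'.2]
  by_cases h : Even (α i + β (σ j))
  · rw [exch_pos α β σ i j h]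
    refine ⟨hij, himg i j (Or.inl ⟨rfl, rfl⟩), ?_, ?_⟩
    · simpa using h
    · simp only [Equiv.Perm.coe_mul, Function.comp, Equiv.swap_apply_left, Equiv.swap_apply_right]
      linarith
  · rw [exch_neg α β σ i j h]
    refine ⟨hij.symm, himg j i (Or.inr ⟨rfl, rfl⟩), ?_, ?_⟩
    · simp only [Equiv.Perm.coe_mul, Function.comp, Equiv.swap_apply_right]
      have h1 : Odd (α i + β (σ j)) := Int.not_even_iff_odd.1 h
      have h2 : α j + β (σ i) = s - (α i + β (σ j)) := by linarith
      rw [h2]; exact hs.sub_odd h1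
    · simp only [Equiv.Perm.coe_mul, Function.comp, Equiv.swap_apply_left, Equiv.swap_apply_right]
      linarith

lemma exch_exch (α β : ι → ℤ) (C' : Finset ℤ) (s : ℤ) (hs : Odd s) (σ : Equiv.Perm ι) (i j : ι)
    (hx : Mark α β C' s (σ, i, j)) : exch α β (exch α β (σ, i, j)) = (σ, i, j) := by
  obtain ⟨hij, him, hev, hsum⟩ := hx
  simp only at hij him hev hsum
  have hodd : ¬ Even (α j + β (σ j)) := by
    have : α j + β (σ j) = s - (α i + β (σ i)) := by linarith
    rw [this, Int.not_even_iff_odd]; exact hs.sub_even hev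
  by_cases h : Even (α i + β (σ j))
  · rw [exch_pos α β σ i j h, exch_pos]
    · simp [mul_assoc]
    · simpa using hev
  · rw [exch_neg α β σ i j h, exch_neg]
    · rw [Equiv.swap_comm j i]
      simp [mul_assoc]
    · simpa using hodd

omit [Fintype ι] in
lemma exch_ne (α β : ι → ℤ) (σ : Equiv.Perm ι) (i j : ι) (hij : i ≠ j) :
    exch α β (σ, i, j) ≠ (σ, i, j) := by
  intro heq
  have h1 : (σ * Equiv.swap i j) = σ := by
    by_cases h : Even (α i + β (σ j))
    · rw [exch_pos α β σ i j h] at heq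
      exact congrArg Prod.fst heq
    · rw [exch_neg α β σ i j h] at heq
      exact congrArg Prod.fst heq
  have h2 : Equiv.swap i j = 1 := by simpa using h1
  rw [Equiv.swap_eq_one_iff] at h2
  exact hij h2

/-- Exchanging the partners of the two marked rows. -/
lemma sum_mark_all (α β : ι → ℤ) (C' : Finset ℤ) (s : ℤ) (hs : Odd s) :
    ∑ x ∈ (Finset.univ : Finset (Equiv.Perm ι × ι × ι)).filter (Mark α β C' s), (1 : ZMod 2) = 0 := by
  classical
  apply Finset.sum_involution (fun x _ => exch α β x)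
  · intro x _; exact zmod2_two
  · rintro ⟨σ, i, j⟩ hx _
    rw [Finset.mem_filter] at hx
    exact exch_ne α β σ i j hx.2.1
  · rintro ⟨σ, i, j⟩ hx
    rw [Finset.mem_filter] at hx ⊢
    exact ⟨Finset.mem_univ _, exch_mark α β C' s hs σ i j hx.2⟩
  · rintro ⟨σ, i, j⟩ hx
    rw [Finset.mem_filter] at hx
    exact exch_exch α β C' s hs σ i j hx.2

/-- Two rows with the same sum: exchanging the first mark. -/
lemma image_exch (f : ι → ℤ) (i j l : ι) (hlj : l ≠ j) (hij : i ≠ j) (hf : f l = f i) :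
    ((Finset.univ.erase i).erase j).image f ⊆ ((Finset.univ.erase l).erase j).image f ∪ {f i} := by
  intro v hv
  rw [Finset.mem_image] at hv
  obtain ⟨p, hp, rfl⟩ := hv
  simp only [Finset.mem_erase, Finset.mem_univ, and_true] at hp
  by_cases hpl : p = l
  · subst hpl; simp [hf]
  · apply Finset.mem_union_left
    apply Finset.mem_image_of_mem
    simp [hp.1, hpl]

lemma image_exch_eq (f : ι → ℤ) (i j l : ι) (hlj : l ≠ j) (hij : i ≠ j) (hil : i ≠ l)
    (hf : f l = f i) :
    ((Finset.univ.erase i).erase j).image f = ((Finset.univ.erase l).erase j).image f := by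
  apply Finset.Subset.antisymm
  · intro v hv
    have := image_exch f i j l hlj hij hf hv
    rw [Finset.mem_union, Finset.mem_singleton] at this
    rcases this with h | h
    · exact h
    · rw [h]
      apply Finset.mem_image_of_mem
      simp [hil, hij]
  · intro v hv
    have := image_exch f l j i hij hlj hf.symm hv
    rw [Finset.mem_union, Finset.mem_singleton] at this
    rcases this with h | h
    · exact h
    · rw [h]
      apply Finset.mem_image_of_mem
      simp [hil.symm, hlj]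

lemma injOn_rest (f : ι → ℤ) (C' : Finset ℤ) (hC : C'.card + 2 = Fintype.card ι) (i j : ι)
    (hij : i ≠ j) (him : ((Finset.univ.erase i).erase j).image f = C') :
    Set.InjOn f (((Finset.univ : Finset ι).erase i).erase j : Finset ι) := by
  rw [← Finset.card_image_iff]
  rw [him, Finset.card_erase_of_mem (by simp [hij.symm]), Finset.card_erase_of_mem (Finset.mem_univ _),
    Finset.card_univ]
  omega

/-- If the first marked sum is one of the other sums. -/
lemma sum_mark_one (α β : ι → ℤ) (C' : Finset ℤ) (hC : C'.card + 2 = Fintype.card ι) (s : ℤ) :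
    ∑ x ∈ (Finset.univ : Finset (Equiv.Perm ι × ι × ι)).filter
      (fun x => Mark α β C' s x ∧ α x.2.1 + β (x.1 x.2.1) ∈ C'), (1 : ZMod 2) = 0 := by
  classical
  have hex : ∀ x : Equiv.Perm ι × ι × ι, ∃ l : ι,
      (Mark α β C' s x ∧ α x.2.1 + β (x.1 x.2.1) ∈ C') →
      l ≠ x.2.1 ∧ l ≠ x.2.2 ∧ α l + β (x.1 l) = α x.2.1 + β (x.1 x.2.1) := by
    rintro ⟨σ, i, j⟩
    by_cases hP : (Mark α β C' s (σ, i, j) ∧ α i + β (σ i) ∈ C')
    · obtain ⟨⟨hij, him, hev, hsum⟩, hmem⟩ := hP
      simp only at hij him hev hsum hmem ⊢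
      rw [← him, Finset.mem_image] at hmem
      obtain ⟨l, hl, hl'⟩ := hmem
      simp only [Finset.mem_erase, Finset.mem_univ, and_true] at hl
      exact ⟨l, fun _ => ⟨hl.2, hl.1, hl'⟩⟩
    · exact ⟨i, fun h => absurd h hP⟩
  choose L hL using hex
  have hL1 := fun x hx => (hL x hx).1
  have hL2 := fun x hx => (hL x hx).2.1
  have hL3 := fun x hx => (hL x hx).2.2
  have key : ∀ x : Equiv.Perm ι × ι × ι, (Mark α β C' s x ∧ α x.2.1 + β (x.1 x.2.1) ∈ C') →
      (Mark α β C' s (x.1, L x, x.2.2) ∧ α (L x) + β (x.1 (L x)) ∈ C') := by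
    rintro ⟨σ, i, j⟩ hx
    have h1 := hL1 _ hx
    have h2 := hL2 _ hx
    have h3 := hL3 _ hx
    obtain ⟨⟨hij, him, hev, hsum⟩, hmem⟩ := hx
    simp only at hij him hev hsum hmem h1 h2 h3
    refine ⟨⟨h2, ?_, ?_, ?_⟩, ?_⟩
    · have := image_exch_eq (fun i => α i + β (σ i)) i j (L (σ, i, j)) h2 hij (Ne.symm h1) h3
      simp only at this ⊢
      rw [← this]; exact him
    · simp only; rw [h3]; exact hev
    · simp only; rw [h3]; exact hsum
    · rw [h3]; exact hmem
  apply Finset.sum_involution (fun x _ => (x.1, L x, x.2.2))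
  · intro x _; exact zmod2_two
  · rintro ⟨σ, i, j⟩ hx _ heq
    rw [Finset.mem_filter] at hx
    have h1 := hL1 _ hx.2
    simp only [Prod.mk.injEq, true_and, and_true] at heq
    exact h1 heq
  · rintro ⟨σ, i, j⟩ hx
    rw [Finset.mem_filter] at hx ⊢
    exact ⟨Finset.mem_univ _, key _ hx.2⟩
  · rintro ⟨σ, i, j⟩ hx
    rw [Finset.mem_filter] at hx
    have hx2 := key _ hx.2
    have h1 := hL1 _ hx.2
    have h2 := hL2 _ hx.2
    have h3 := hL3 _ hx.2
    have g1 := hL1 _ hx2
    have g2 := hL2 _ hx2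
    have g3 := hL3 _ hx2
    simp only at h1 h2 h3 g1 g2 g3 hx2 ⊢
    have hinj := injOn_rest (fun i => α i + β (σ i)) C' hC (L (σ, i, j)) j h2 hx2.1.2.1
    have : L (σ, L (σ, i, j), j) = i := by
      apply hinj
      · simp [g1, g2]
      · simp [Ne.symm h1, hx.2.1.1]
      · simp only; rw [g3, h3]
    rw [this]

/-- If the first marked sum is new, but the second is one of the other sums. -/
lemma sum_mark_two (α β : ι → ℤ) (C' : Finset ℤ) (hC : C'.card + 2 = Fintype.card ι) (s : ℤ) :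
    ∑ x ∈ (Finset.univ : Finset (Equiv.Perm ι × ι × ι)).filter
      (fun x => Mark α β C' s x ∧ α x.2.1 + β (x.1 x.2.1) ∉ C' ∧ α x.2.2 + β (x.1 x.2.2) ∈ C'),
        (1 : ZMod 2) = 0 := by
  classical
  have hex : ∀ x : Equiv.Perm ι × ι × ι, ∃ l : ι,
      (Mark α β C' s x ∧ α x.2.1 + β (x.1 x.2.1) ∉ C' ∧ α x.2.2 + β (x.1 x.2.2) ∈ C') →
      l ≠ x.2.1 ∧ l ≠ x.2.2 ∧ α l + β (x.1 l) = α x.2.2 + β (x.1 x.2.2) := by
    rintro ⟨σ, i, j⟩
    by_cases hP : (Mark α β C' s (σ, i, j) ∧ α i + β (σ i) ∉ C' ∧ α j + β (σ j) ∈ C')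
    · obtain ⟨⟨hij, him, hev, hsum⟩, _, hmem⟩ := hP
      simp only at hij him hev hsum hmem ⊢
      rw [← him, Finset.mem_image] at hmem
      obtain ⟨l, hl, hl'⟩ := hmem
      simp only [Finset.mem_erase, Finset.mem_univ, and_true] at hl
      exact ⟨l, fun _ => ⟨hl.2, hl.1, hl'⟩⟩
    · exact ⟨i, fun h => absurd h hP⟩
  choose L hL using hex
  have hL1 := fun x hx => (hL x hx).1
  have hL2 := fun x hx => (hL x hx).2.1
  have hL3 := fun x hx => (hL x hx).2.2
  have key : ∀ x : Equiv.Perm ι × ι × ι,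
      (Mark α β C' s x ∧ α x.2.1 + β (x.1 x.2.1) ∉ C' ∧ α x.2.2 + β (x.1 x.2.2) ∈ C') →
      (Mark α β C' s (x.1, x.2.1, L x) ∧ α x.2.1 + β (x.1 x.2.1) ∉ C' ∧
        α (L x) + β (x.1 (L x)) ∈ C') := by
    rintro ⟨σ, i, j⟩ hx
    have h1 := hL1 _ hx
    have h2 := hL2 _ hx
    have h3 := hL3 _ hx
    obtain ⟨⟨hij, him, hev, hsum⟩, hnm, hmem⟩ := hx
    simp only at hij him hev hsum hmem hnm h1 h2 h3
    refine ⟨⟨Ne.symm h1, ?_, ?_, ?_⟩, ?_, ?_⟩
    · have := image_exch_eq (fun i => α i + β (σ i)) j i (L (σ, i, j)) h1 hij.symm (Ne.symm h2) h3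
      simp only at this ⊢
      rw [Finset.erase_right_comm, ← this, Finset.erase_right_comm]; exact him
    · simp only; exact hev
    · simp only; rw [h3]; exact hsum
    · exact hnm
    · rw [h3]; exact hmem
  apply Finset.sum_involution (fun x _ => (x.1, x.2.1, L x))
  · intro x _; exact zmod2_two
  · rintro ⟨σ, i, j⟩ hx _ heq
    rw [Finset.mem_filter] at hx
    have h2 := hL2 _ hx.2
    simp only [Prod.mk.injEq, true_and] at heq
    exact h2 heq
  · rintro ⟨σ, i, j⟩ hx
    rw [Finset.mem_filter] at hx ⊢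
    exact ⟨Finset.mem_univ _, key _ hx.2⟩
  · rintro ⟨σ, i, j⟩ hx
    rw [Finset.mem_filter] at hx
    have hx2 := key _ hx.2
    have h1 := hL1 _ hx.2
    have h2 := hL2 _ hx.2
    have h3 := hL3 _ hx.2
    have g1 := hL1 _ hx2
    have g2 := hL2 _ hx2
    have g3 := hL3 _ hx2
    simp only at h1 h2 h3 g1 g2 g3 hx2 ⊢
    have hinj := injOn_rest (fun i => α i + β (σ i)) C' hC i (L (σ, i, j)) (Ne.symm h1) hx2.1.2.1
    have : L (σ, i, L (σ, i, j)) = j := by
      apply hinj
      · simp [g1, g2]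
      · simp [Ne.symm h2, Ne.symm hx.2.1.1]
      · simp only; rw [g3, h3]
    rw [this]

/-- The triples with two new marked sums. -/
lemma sum_mark_zero (α β : ι → ℤ) (C' : Finset ℤ) (hC : C'.card + 2 = Fintype.card ι) (s : ℤ)
    (hs : Odd s) :
    ∑ x ∈ (Finset.univ : Finset (Equiv.Perm ι × ι × ι)).filter
      (fun x => Mark α β C' s x ∧ α x.2.1 + β (x.1 x.2.1) ∉ C' ∧ α x.2.2 + β (x.1 x.2.2) ∉ C'),
        (1 : ZMod 2) = 0 := by
  classical
  have h0 := sum_mark_all α β C' s hs
  have h1 := sum_mark_one α β C' hC s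
  have h2 := sum_mark_two α β C' hC s
  rw [← Finset.sum_filter_add_sum_filter_not _ (fun x : Equiv.Perm ι × ι × ι =>
    α x.2.1 + β (x.1 x.2.1) ∈ C'), Finset.filter_filter, Finset.filter_filter, h1, zero_add,
    ← Finset.sum_filter_add_sum_filter_not _ (fun x : Equiv.Perm ι × ι × ι =>
    α x.2.2 + β (x.1 x.2.2) ∈ C'), Finset.filter_filter, Finset.filter_filter] at h0
  have e1 : ∀ (P Q R : Equiv.Perm ι × ι × ι → Prop) [DecidablePred P] [DecidablePred Q]
    [DecidablePred R], (Finset.univ : Finset (Equiv.Perm ι × ι × ι)).filter (fun x => (P x ∧ Q x) ∧ R x)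
      = Finset.univ.filter (fun x => P x ∧ Q x ∧ R x) := by
    intro P Q R _ _ _
    ext x; simp [and_assoc]
  rw [e1, e1, h2, zero_add] at h0
  exact h0

/-- **The relations.** -/
theorem rel (α β : ι → ℤ) (C' : Finset ℤ) (hC : C'.card + 2 = Fintype.card ι) (s : ℤ)
    (hs : Odd s) (W : Finset ℤ) (hW : ∀ i j, α i + β j ∈ W) :
    ∑ c ∈ W.filter (fun c => Even c ∧ c ∉ C' ∧ s - c ∉ C'),
      cnt α β (insert c (insert (s - c) C')) = 0 := by
  classical
  rw [← sum_mark_zero α β C' hC s hs]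
  unfold cnt
  rw [← Finset.sum_product' (W.filter (fun c => Even c ∧ c ∉ C' ∧ s - c ∉ C')) Finset.univ
    (fun c σ => if sumSet α β σ = insert c (insert (s - c) C') then (1 : ZMod 2) else 0),
    ← Finset.sum_filter]
  symm
  apply Finset.sum_bij (fun x _ => (α x.2.1 + β (x.1 x.2.1), x.1))
  · rintro ⟨σ, i, j⟩ hx
    rw [Finset.mem_filter] at hx
    obtain ⟨_, ⟨hij, him, hev, hsum⟩, hi, hj⟩ := hx
    simp only at hij him hev hsum hi hj ⊢
    rw [Finset.mem_filter, Finset.mem_product, Finset.mem_filter]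
    have hj' : s - (α i + β (σ i)) = α j + β (σ j) := by linarith
    refine ⟨⟨⟨hW _ _, hev, hi, by rw [hj']; exact hj⟩, Finset.mem_univ _⟩, ?_⟩
    simp only
    rw [hj', ← him, sumSet]
    ext v
    simp only [Finset.mem_image, Finset.mem_univ, true_and, Finset.mem_insert, Finset.mem_erase,
      and_true]
    constructor
    · rintro ⟨p, rfl⟩
      by_cases h1 : p = i
      · left; rw [h1]
      · by_cases h2 : p = j
        · right; left; rw [h2]
        · right; right; exact ⟨p, ⟨h2, h1⟩, rfl⟩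
    · rintro (rfl | rfl | ⟨p, _, rfl⟩)
      · exact ⟨i, rfl⟩
      · exact ⟨j, rfl⟩
      · exact ⟨p, rfl⟩
  · rintro ⟨σ, i, j⟩ hx ⟨σ', i', j'⟩ hx' heq
    rw [Finset.mem_filter] at hx hx'
    obtain ⟨_, ⟨hij, him, hev, hsum⟩, hi, hj⟩ := hx
    obtain ⟨_, ⟨hij', him', hev', hsum'⟩, hi', hj'⟩ := hx'
    simp only at hij him hev hsum hi hj hij' him' hev' hsum' hi' hj'
    rw [Prod.mk.injEq] at heq
    obtain ⟨h1, h2⟩ := heq
    simp only at h1 h2
    subst h2
    have hii : i = i' := by
      by_contra hne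
      by_cases h3 : i' = j
      · subst h3
        have : α i' + β (σ i') = s - (α i + β (σ i)) := by linarith
        rw [this] at hev'
        exact (Int.not_even_iff_odd.2 (hs.sub_even hev)) hev'
      · apply hi
        rw [h1, ← him]
        apply Finset.mem_image_of_mem (fun i => α i + β (σ i))
        simp [h3, Ne.symm hne]
    subst hii
    have hjj : j = j' := by
      by_contra hne
      apply hj
      have : α j + β (σ j) = α j' + β (σ j') := by linarith
      rw [this, ← him]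
      apply Finset.mem_image_of_mem (fun i => α i + β (σ i))
      simp [hij'.symm, Ne.symm hne]
    rw [hjj]
  · rintro ⟨c, σ⟩ hx
    rw [Finset.mem_filter, Finset.mem_product, Finset.mem_filter] at hx
    obtain ⟨⟨⟨hcW, hce, hc1, hc2⟩, _⟩, hS⟩ := hx
    simp only at hcW hce hc1 hc2 hS
    have hcs : c ≠ s - c := by
      intro h
      have : s = c + c := by linarith
      rw [this] at hs
      exact (Int.not_even_iff_odd.2 hs) (Even.add_self c)
    have hcard : (sumSet α β σ).card = Fintype.card ι := by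
      rw [hS, Finset.card_insert_of_notMem (by simp [hcs, hc1]),
        Finset.card_insert_of_notMem hc2]
      omega
    have hinj : Function.Injective (fun i => α i + β (σ i)) := by
      have : Set.InjOn (fun i => α i + β (σ i)) ((Finset.univ : Finset ι) : Set ι) := by
        rw [← Finset.card_image_iff, Finset.card_univ]
        exact hcard
      rw [Finset.coe_univ] at this
      exact fun a b h => this (Set.mem_univ a) (Set.mem_univ b) h
    have hci : c ∈ sumSet α β σ := by rw [hS]; simp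
    have hcj : s - c ∈ sumSet α β σ := by rw [hS]; simp
    rw [sumSet, Finset.mem_image] at hci hcj
    obtain ⟨i, _, hi⟩ := hci
    obtain ⟨j, _, hj⟩ := hcj
    have hij : i ≠ j := by
      rintro rfl
      exact hcs (hi.symm.trans hj)
    refine ⟨(σ, i, j), ?_, ?_⟩
    · rw [Finset.mem_filter]
      refine ⟨Finset.mem_univ _, ⟨hij, ?_, ?_, ?_⟩, ?_, ?_⟩
      · simp only
        rw [Finset.image_erase hinj, Finset.image_erase hinj]
        have : Finset.univ.image (fun i => α i + β (σ i)) = sumSet α β σ := rfl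
        rw [this, hS, hi, hj, Finset.erase_insert (by simp [hcs, hc1]), Finset.erase_insert hc2]
      · simp only; rw [hi]; exact hce
      · simp only; rw [hi, hj]; ring
      · simp only; rw [hi]; exact hc1
      · simp only; rw [hj]; exact hc2
    · simp only; rw [hi]
  · intro x _; rfl

end Pool.Agent.Helper10.SN
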