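import Pool.Agent.Helper10.SN.Pot
import Pool.Agent.Helper10.SN.Rel

/-!
# Two-layer lemma: a type of discrepancy at most one is realised without overlap
-/

namespace Pool.Agent.Helper10.SN

open Finset

lemma eqc_two (S : Finset Pt) (x : ℤ) (h0 : (false, x) ∈ S) (h1 : (true, x) ∈ S) :
    eqc S x = 2 := by
  unfold eqc
  have : S.filter (fun y => y.2 = x) = {(false, x), (true, x)} := by
    ext ⟨b, y⟩
    simp only [Finset.mem_filter, Finset.mem_insert, Finset.mem_singleton, Prod.mk.injEq]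
    constructor
    · rintro ⟨_, rfl⟩
      cases b <;> simp
    · rintro (⟨rfl, rfl⟩ | ⟨rfl, rfl⟩)
      · exact ⟨h0, rfl⟩
      · exact ⟨h1, rfl⟩
  rw [this, Finset.card_pair (by simp)]
  rfl

lemma eqc_pos (S : Finset Pt) (x : Pt) (h : x ∈ S) : 1 ≤ eqc S x.2 := by
  unfold eqc
  have : 0 < (S.filter (fun y => y.2 = x.2)).card :=
    Finset.card_pos.2 ⟨x, Finset.mem_filter.2 ⟨h, rfl⟩⟩
  omega

lemma ltc_nonneg (S : Finset Pt) (x : ℤ) : 0 ≤ ltc S x := by unfold ltc; positivity
lemma gtc_nonneg (S : Finset Pt) (x : ℤ) : 0 ≤ gtc S x := by unfold gtc; positivity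

lemma ltc_erase (S : Finset Pt) (p : Pt) : ltc (S.erase p) p.2 = ltc S p.2 := by
  unfold ltc
  rw [Finset.filter_erase, Finset.erase_eq_of_notMem]
  simp

lemma gtc_erase (S : Finset Pt) (p : Pt) : gtc (S.erase p) p.2 = gtc S p.2 := by
  unfold gtc
  rw [Finset.filter_erase, Finset.erase_eq_of_notMem]
  simp

lemma eqc_erase (S : Finset Pt) (p : Pt) (hp : p ∈ S) : eqc (S.erase p) p.2 = eqc S p.2 - 1 := by
  unfold eqc
  rw [Finset.filter_erase, Finset.card_erase_of_mem (by simp [hp])]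
  have : 0 < (S.filter (fun y => y.2 = p.2)).card :=
    Finset.card_pos.2 ⟨p, Finset.mem_filter.2 ⟨hp, rfl⟩⟩
  omega

lemma Ev_erase_two (X : Finset Pt) (a b : Pt) (hb : ¬ Even b.2) :
    Ev ((X.erase a).erase b) = (Ev X).erase a := by
  unfold Ev
  rw [Finset.filter_erase, Finset.filter_erase, Finset.erase_eq_of_notMem]
  intro h
  have := Finset.mem_of_mem_erase h
  rw [Finset.mem_filter] at this
  exact hb this.2

lemma Od_erase_two (X : Finset Pt) (a b : Pt) (ha : Even a.2) :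
    Od ((X.erase a).erase b) = (Od X).erase b := by
  unfold Od
  rw [Finset.filter_erase, Finset.filter_erase, Finset.erase_eq_of_notMem (s := X.filter _)]
  intro h
  rw [Finset.mem_filter] at h
  exact h.2 ha

lemma exists_pair (X : Finset Pt) (x : ℤ) (h0 : (false, x) ∈ X) (h1 : (true, x) ∈ X)
    (hD1 : (Ev X).card ≤ (Od X).card + 1) (hD2 : (Od X).card ≤ (Ev X).card + 1) :
    ∃ (l : Bool) (c d : ℤ), Even c ∧ ¬ Even d ∧ (l, c) ∈ X ∧ (l, d) ∈ X ∧
      -(2 * (eqc (Ev ((X.erase (l, c)).erase (l, d))) c + eqc (Od ((X.erase (l, c)).erase (l, d))) d)) <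
      2 * ((ltc (Ev ((X.erase (l, c)).erase (l, d))) c - gtc (Ev ((X.erase (l, c)).erase (l, d))) c) +
        (gtc (Od ((X.erase (l, c)).erase (l, d))) d - ltc (Od ((X.erase (l, c)).erase (l, d))) d)) + 1 ∧
      2 * ((ltc (Ev ((X.erase (l, c)).erase (l, d))) c - gtc (Ev ((X.erase (l, c)).erase (l, d))) c) +
        (gtc (Od ((X.erase (l, c)).erase (l, d))) d - ltc (Od ((X.erase (l, c)).erase (l, d))) d)) + 1 <
      2 * (eqc (Ev ((X.erase (l, c)).erase (l, d))) c + eqc (Od ((X.erase (l, c)).erase (l, d))) d) := by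
  have cE := fun c => ltc_add (Ev X) c
  have cO := fun c => ltc_add (Od X) c
  have hD1' : ((Ev X).card : ℤ) ≤ (Od X).card + 1 := by exact_mod_cast hD1
  have hD2' : ((Od X).card : ℤ) ≤ (Ev X).card + 1 := by exact_mod_cast hD2
  by_cases hx : Even x
  · -- the overlap is even
    have m0 : (false, x) ∈ Ev X := by unfold Ev; exact Finset.mem_filter.2 ⟨h0, hx⟩
    have m1 : (true, x) ∈ Ev X := by unfold Ev; exact Finset.mem_filter.2 ⟨h1, hx⟩
    have e2 := eqc_two (Ev X) x m0 m1
    have cEx := cE x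
    have l0 := ltc_nonneg (Ev X) x
    have g0 := gtc_nonneg (Ev X) x
    obtain ⟨y, hy, hy1, hy2⟩ := rank (Od X) (fun z => - z.2)
      ((Od X).card - (ltc (Ev X) x - gtc (Ev X) x)) (by linarith) (by linarith)
    have f1 : ((Od X).filter (fun z => - z.2 < - y.2)) = (Od X).filter (fun z => y.2 < z.2) := by
      apply Finset.filter_congr; intro z _; exact neg_lt_neg_iff
    have f2 : (((Od X).filter (fun z => - z.2 ≤ - y.2)).card : ℤ) = gtc (Od X) y.2 + eqc (Od X) y.2 := by
      unfold gtc eqc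
      rw [← Nat.cast_add, Nat.cast_inj, ← Finset.card_union_of_disjoint]
      · congr 1
        ext z
        simp only [Finset.mem_filter, Finset.mem_union]
        constructor
        · rintro ⟨hz, hz2⟩
          rcases lt_or_eq_of_le (neg_le_neg_iff.1 hz2) with h | h
          · left; exact ⟨hz, h⟩
          · right; exact ⟨hz, h.symm⟩
        · rintro (⟨hz, hz2⟩ | ⟨hz, hz2⟩)
          · exact ⟨hz, by omega⟩
          · exact ⟨hz, by omega⟩
      · rw [Finset.disjoint_left]
        intro z hz hz2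
        rw [Finset.mem_filter] at hz hz2
        omega
    rw [f1] at hy1
    rw [f2] at hy2
    have hy1' : 2 * gtc (Od X) y.2 < (Od X).card - (ltc (Ev X) x - gtc (Ev X) x) := hy1
    have hyX : y ∈ X := (Finset.mem_filter.1 hy).1
    have hyo : ¬ Even y.2 := (Finset.mem_filter.1 hy).2
    have hxX : (y.1, x) ∈ X := by cases y.1 <;> assumption
    have hxE : (y.1, x) ∈ Ev X := by cases y.1 <;> assumption
    have eO := eqc_pos (Od X) y hy
    have cOy := cO y.2
    refine ⟨y.1, x, y.2, hx, hyo, hxX, hyX, ?_⟩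
    rw [Ev_erase_two X (y.1, x) (y.1, y.2) hyo, Od_erase_two X (y.1, x) (y.1, y.2) hx]
    have r1 := ltc_erase (Ev X) (y.1, x)
    have r2 := gtc_erase (Ev X) (y.1, x)
    have r3 := eqc_erase (Ev X) (y.1, x) hxE
    have r4 := ltc_erase (Od X) (y.1, y.2)
    have r5 := gtc_erase (Od X) (y.1, y.2)
    have r6 := eqc_erase (Od X) (y.1, y.2) hy
    simp only at r1 r2 r3 r4 r5 r6
    rw [r1, r2, r3, r4, r5, r6]
    constructor <;> linarith
  · -- the overlap is odd
    have m0 : (false, x) ∈ Od X := by unfold Od; exact Finset.mem_filter.2 ⟨h0, hx⟩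
    have m1 : (true, x) ∈ Od X := by unfold Od; exact Finset.mem_filter.2 ⟨h1, hx⟩
    have e2 := eqc_two (Od X) x m0 m1
    have cOx := cO x
    have l0 := ltc_nonneg (Od X) x
    have g0 := gtc_nonneg (Od X) x
    obtain ⟨y, hy, hy1, hy2⟩ := rank (Ev X) (fun z => z.2)
      ((Ev X).card - (gtc (Od X) x - ltc (Od X) x)) (by linarith) (by linarith)
    have f2 : (((Ev X).filter (fun z => z.2 ≤ y.2)).card : ℤ) = ltc (Ev X) y.2 + eqc (Ev X) y.2 := by
      unfold ltc eqc
      rw [← Nat.cast_add, Nat.cast_inj, ← Finset.card_union_of_disjoint]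
      · congr 1
        ext z
        simp only [Finset.mem_filter, Finset.mem_union]
        constructor
        · rintro ⟨hz, hz2⟩
          rcases lt_or_eq_of_le hz2 with h | h
          · left; exact ⟨hz, h⟩
          · right; exact ⟨hz, h⟩
        · rintro (⟨hz, hz2⟩ | ⟨hz, hz2⟩)
          · exact ⟨hz, by omega⟩
          · exact ⟨hz, by omega⟩
      · rw [Finset.disjoint_left]
        intro z hz hz2
        rw [Finset.mem_filter] at hz hz2
        omega
    rw [f2] at hy2
    have hy1' : 2 * ltc (Ev X) y.2 < (Ev X).card - (gtc (Od X) x - ltc (Od X) x) := hy1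
    have hyX : y ∈ X := (Finset.mem_filter.1 hy).1
    have hye : Even y.2 := (Finset.mem_filter.1 hy).2
    have hxX : (y.1, x) ∈ X := by cases y.1 <;> assumption
    have hxO : (y.1, x) ∈ Od X := by cases y.1 <;> assumption
    have eE := eqc_pos (Ev X) y hy
    have cEy := cE y.2
    refine ⟨y.1, y.2, x, hye, hx, hyX, hxX, ?_⟩
    rw [Ev_erase_two X (y.1, y.2) (y.1, x) hx, Od_erase_two X (y.1, y.2) (y.1, x) hye]
    have r1 := ltc_erase (Od X) (y.1, x)
    have r2 := gtc_erase (Od X) (y.1, x)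
    have r3 := eqc_erase (Od X) (y.1, x) hxO
    have r4 := ltc_erase (Ev X) (y.1, y.2)
    have r5 := gtc_erase (Ev X) (y.1, y.2)
    have r6 := eqc_erase (Ev X) (y.1, y.2) hy
    simp only at r1 r2 r3 r4 r5 r6
    rw [r1, r2, r3, r4, r5, r6]
    constructor <;> linarith

/-- **Key theorem**: a function on two-layer sets satisfying the relations and nonzero at a set of
discrepancy at most one is nonzero at a set without overlap (of the same type). -/
theorem key (T : Finset Pt → ZMod 2) (U : Finset Pt) (hU : ∀ X, T X ≠ 0 → X ⊆ U)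
    (hrel : ∀ (l : Bool) (X' : Finset Pt) (s : ℤ) (W : Finset ℤ), Odd s → (∀ x ∈ U, x.2 ∈ W) →
      ∑ c ∈ W.filter (fun c => Even c ∧ (l, c) ∉ X' ∧ (l, s - c) ∉ X'),
        T (insert (l, c) (insert (l, s - c) X')) = 0)
    (X0 : Finset Pt) (h0 : T X0 ≠ 0)
    (hD1 : (Ev X0).card ≤ (Od X0).card + 1) (hD2 : (Od X0).card ≤ (Ev X0).card + 1) :
    ∃ X, T X ≠ 0 ∧ (Ev X).card = (Ev X0).card ∧ (Od X).card = (Od X0).card ∧
      ∀ x, (false, x) ∈ X → (true, x) ∈ X → False := by
  classical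
  set 𝒮 := U.powerset.filter (fun X => T X ≠ 0 ∧ (Ev X).card = (Ev X0).card ∧
    (Od X).card = (Od X0).card) with h𝒮
  have hmem : ∀ X, X ∈ 𝒮 ↔ (T X ≠ 0 ∧ (Ev X).card = (Ev X0).card ∧ (Od X).card = (Od X0).card) := by
    intro X
    rw [h𝒮, Finset.mem_filter, Finset.mem_powerset]
    exact ⟨fun h => h.2, fun h => ⟨hU X h.1, h⟩⟩
  obtain ⟨X, hX, hmax⟩ := Finset.exists_max_image 𝒮 Phi ⟨X0, (hmem X0).2 ⟨h0, rfl, rfl⟩⟩
  rw [hmem] at hX
  refine ⟨X, hX.1, hX.2.1, hX.2.2, ?_⟩
  intro x hx0 hx1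
  obtain ⟨l, c, d, hc, hd, hcX, hdX, hP1, hP2⟩ := exists_pair X x hx0 hx1
    (by rw [hX.2.1, hX.2.2]; exact hD1) (by rw [hX.2.1, hX.2.2]; exact hD2)
  set X' := (X.erase (l, c)).erase (l, d) with hX'
  have hcd : c ≠ d := by rintro rfl; exact hd hc
  have hne : (l, d) ≠ (l, c) := by
    intro h; exact hcd (congrArg Prod.snd h).symm
  have hc' : (l, c) ∉ X' := by simp [hX']
  have hd' : (l, d) ∉ X' := by simp [hX']
  have hXX : insert (l, c) (insert (l, d) X') = X := by
    rw [hX', Finset.insert_erase (Finset.mem_erase.2 ⟨hne, hdX⟩), Finset.insert_erase hcX]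
  have hs : Odd (c + d) := hc.add_odd (Int.not_even_iff_odd.1 hd)
  have hsum := hrel l X' (c + d) (U.image Prod.snd) hs
    (fun x hx => Finset.mem_image_of_mem _ hx)
  have hcW : c ∈ (U.image Prod.snd).filter
      (fun c' => Even c' ∧ (l, c') ∉ X' ∧ (l, c + d - c') ∉ X') := by
    rw [Finset.mem_filter]
    refine ⟨?_, hc, hc', by rw [add_sub_cancel_left]; exact hd'⟩
    exact Finset.mem_image_of_mem Prod.snd (hU X hX.1 hcX)
  have hex : ∃ c' ∈ (U.image Prod.snd).filter
      (fun c' => Even c' ∧ (l, c') ∉ X' ∧ (l, c + d - c') ∉ X'), c' ≠ c ∧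
      T (insert (l, c') (insert (l, c + d - c') X')) ≠ 0 := by
    by_contra hcon
    push Not at hcon
    rw [Finset.sum_eq_single c (fun b hb hbc => hcon b hb hbc) (fun h => absurd hcW h)] at hsum
    rw [add_sub_cancel_left, hXX] at hsum
    exact hX.1 hsum
  obtain ⟨c', hc'W, hc'c, hTc'⟩ := hex
  rw [Finset.mem_filter] at hc'W
  obtain ⟨_, hc'e, hc'1, hc'2⟩ := hc'W
  have hd'o : ¬ Even (c + d - c') := by
    rw [Int.not_even_iff_odd]; exact hs.sub_even hc'e
  have hlt := Phi_line X' l c d (c' - c) hc hd (hc'e.sub hc) (sub_ne_zero.2 hc'c) hc' hd'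
    (by rw [add_sub_cancel]; exact hc'1)
    (by rw [show d - (c' - c) = c + d - c' by ring]; exact hc'2) hP1 hP2
  rw [add_sub_cancel, show d - (c' - c) = c + d - c' by ring, hXX] at hlt
  have hab' : (l, c') ≠ (l, c + d - c') := by
    intro h
    have := congrArg Prod.snd h
    simp only at this
    rw [this] at hc'e
    exact hd'o hc'e
  have hcardE : ∀ (a b : Pt), Even a.2 → ¬ Even b.2 → a ∉ X' → b ∉ X' →
      (Ev (insert a (insert b X'))).card = (Ev X').card + 1 := by
    intro a b ha hb haX hbX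
    rw [Ev_insert_even _ a ha, Ev_insert_odd _ b hb, Finset.card_insert_of_notMem]
    intro h; exact haX (Finset.mem_filter.1 h).1
  have hcardO : ∀ (a b : Pt), Even a.2 → ¬ Even b.2 → a ∉ X' → b ∉ X' →
      (Od (insert a (insert b X'))).card = (Od X').card + 1 := by
    intro a b ha hb haX hbX
    rw [Od_insert_even _ a ha, Od_insert_odd _ b hb, Finset.card_insert_of_notMem]
    intro h; exact hbX (Finset.mem_filter.1 h).1
  have hmem2 : insert (l, c') (insert (l, c + d - c') X') ∈ 𝒮 := by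
    rw [hmem]
    refine ⟨hTc', ?_, ?_⟩
    · rw [hcardE _ _ hc'e hd'o hc'1 hc'2, ← hX.2.1, ← hXX, hcardE (l, c) (l, d) hc hd hc' hd']
    · rw [hcardO _ _ hc'e hd'o hc'1 hc'2, ← hX.2.2, ← hXX, hcardO (l, c) (l, d) hc hd hc' hd']
  have := hmax _ hmem2
  omega

end Pool.Agent.Helper10.SN
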