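import Mathlib

/-!
# The potential argument (two layers)
-/

namespace Pool.Agent.Helper10.SN

open Finset

abbrev Pt := Bool × ℤ

/-- even part -/
def Ev (X : Finset Pt) : Finset Pt := X.filter (fun x => Even x.2)
/-- odd part -/
def Od (X : Finset Pt) : Finset Pt := X.filter (fun x => ¬ Even x.2)

/-- number of points of `S` with value `< c` -/
def ltc (S : Finset Pt) (c : ℤ) : ℤ := ((S.filter (fun x => x.2 < c)).card : ℤ)
def gtc (S : Finset Pt) (c : ℤ) : ℤ := ((S.filter (fun x => c < x.2)).card : ℤ)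
def eqc (S : Finset Pt) (c : ℤ) : ℤ := ((S.filter (fun x => x.2 = c)).card : ℤ)

lemma ltc_add (S : Finset Pt) (c : ℤ) : ltc S c + eqc S c + gtc S c = (S.card : ℤ) := by
  unfold ltc gtc eqc
  have h1 := Finset.card_filter_add_card_filter_not (s := S) (fun x => x.2 < c)
  have h2 := Finset.card_filter_add_card_filter_not (s := S.filter (fun x => ¬ x.2 < c)) (fun x => x.2 = c)
  rw [Finset.filter_filter, Finset.filter_filter] at h2
  have e1 : S.filter (fun x => ¬ x.2 < c ∧ x.2 = c) = S.filter (fun x => x.2 = c) := by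
    apply Finset.filter_congr; intro x _; constructor
    · exact fun h => h.2
    · intro h; exact ⟨by omega, h⟩
  have e2 : S.filter (fun x => ¬ x.2 < c ∧ ¬ x.2 = c) = S.filter (fun x => c < x.2) := by
    apply Finset.filter_congr; intro x _; constructor
    · intro h; omega
    · intro h; omega
  rw [e1, e2] at h2
  have := congrArg (Nat.cast (R := ℤ)) h1
  have := congrArg (Nat.cast (R := ℤ)) h2
  push_cast at *
  linarith

/-- The potential. -/
def Phi (X : Finset Pt) : ℤ :=
  (∑ x ∈ X, ∑ y ∈ X, if (Even x.2 ↔ Even y.2) then |x.2 - y.2| else 0)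
    + ∑ x ∈ X, if Even x.2 then x.2 else 0

lemma Phi_insert_even (X : Finset Pt) (a : Pt) (ha : Even a.2) (haX : a ∉ X) :
    Phi (insert a X) = Phi X + 2 * (∑ y ∈ Ev X, |a.2 - y.2|) + a.2 := by
  unfold Phi Ev
  rw [Finset.sum_insert haX, Finset.sum_insert haX, Finset.sum_insert haX]
  have e1 : ∀ x ∈ X, (∑ y ∈ insert a X, if (Even x.2 ↔ Even y.2) then |x.2 - y.2| else 0)
      = (if Even x.2 then |a.2 - x.2| else 0)
        + ∑ y ∈ X, if (Even x.2 ↔ Even y.2) then |x.2 - y.2| else 0 := by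
    intro x _
    rw [Finset.sum_insert haX]
    congr 1
    simp only [ha, iff_true]
    rw [abs_sub_comm]
  rw [Finset.sum_congr rfl e1, Finset.sum_add_distrib, Finset.sum_filter]
  simp only [ha, true_iff, sub_self, abs_zero, if_true, ite_self]
  ring

lemma Phi_insert_odd (X : Finset Pt) (a : Pt) (ha : ¬ Even a.2) (haX : a ∉ X) :
    Phi (insert a X) = Phi X + 2 * (∑ y ∈ Od X, |a.2 - y.2|) := by
  unfold Phi Od
  rw [Finset.sum_insert haX, Finset.sum_insert haX, Finset.sum_insert haX]
  have e1 : ∀ x ∈ X, (∑ y ∈ insert a X, if (Even x.2 ↔ Even y.2) then |x.2 - y.2| else 0)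
      = (if ¬ Even x.2 then |a.2 - x.2| else 0)
        + ∑ y ∈ X, if (Even x.2 ↔ Even y.2) then |x.2 - y.2| else 0 := by
    intro x _
    rw [Finset.sum_insert haX]
    congr 1
    simp only [ha, iff_false]
    rw [abs_sub_comm]
  rw [Finset.sum_congr rfl e1, Finset.sum_add_distrib, Finset.sum_filter]
  simp only [ha, false_iff, sub_self, abs_zero, if_false, ite_self]
  ring

lemma Ev_insert_odd (X : Finset Pt) (a : Pt) (ha : ¬ Even a.2) : Ev (insert a X) = Ev X := by
  unfold Ev; rw [Finset.filter_insert, if_neg ha]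

lemma Od_insert_even (X : Finset Pt) (a : Pt) (ha : Even a.2) : Od (insert a X) = Od X := by
  unfold Od; rw [Finset.filter_insert, if_neg (by simpa using ha)]

lemma Ev_insert_even (X : Finset Pt) (a : Pt) (ha : Even a.2) : Ev (insert a X) = insert a (Ev X) := by
  unfold Ev; rw [Finset.filter_insert, if_pos ha]

lemma Od_insert_odd (X : Finset Pt) (a : Pt) (ha : ¬ Even a.2) : Od (insert a X) = insert a (Od X) := by
  unfold Od; rw [Finset.filter_insert, if_pos ha]

lemma Phi_insert_two (X : Finset Pt) (a b : Pt) (ha : Even a.2) (hb : ¬ Even b.2) (haX : a ∉ X)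
    (hbX : b ∉ X) :
    Phi (insert a (insert b X)) = Phi X + 2 * (∑ y ∈ Ev X, |a.2 - y.2|)
      + 2 * (∑ y ∈ Od X, |b.2 - y.2|) + a.2 := by
  have hab : a ≠ b := by rintro rfl; exact hb ha
  rw [Phi_insert_even _ a ha (by simp [hab, haX]), Phi_insert_odd _ b hb hbX, Ev_insert_odd _ b hb]
  ring

/-- Lower bound for the change of a sum of absolute values. -/
lemma sum_abs_lower (S : Finset Pt) (c t : ℤ) :
    t * (ltc S c - gtc S c) + |t| * eqc S c ≤ (∑ y ∈ S, |c + t - y.2|) - ∑ y ∈ S, |c - y.2| := by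
  unfold ltc gtc eqc
  rw [← Finset.sum_sub_distrib]
  rw [Finset.card_filter, Finset.card_filter, Finset.card_filter]
  push_cast
  rw [mul_sub, Finset.mul_sum, Finset.mul_sum, Finset.mul_sum, ← Finset.sum_sub_distrib,
    ← Finset.sum_add_distrib]
  apply Finset.sum_le_sum
  intro y _
  rcases lt_trichotomy y.2 c with h | h | h
  · have h1 : ¬ c < y.2 := by omega
    have h2 : ¬ y.2 = c := by omega
    simp only [h, h1, h2, if_true, if_false, mul_one, mul_zero, sub_zero, add_zero]
    rw [abs_of_pos (show (0:ℤ) < c - y.2 by omega)]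
    have := le_abs_self (c + t - y.2)
    omega
  · have h1 : ¬ c < y.2 := by omega
    have h2 : ¬ y.2 < c := by omega
    simp only [h, h1, h2, if_true, if_false, mul_one, mul_zero, sub_zero, lt_irrefl]
    rw [show c + t - c = t by ring, sub_self, abs_zero]
    omega
  · have h1 : ¬ y.2 < c := by omega
    have h2 : ¬ y.2 = c := by omega
    simp only [h, h1, h2, if_true, if_false, mul_one, mul_zero, add_zero]
    rw [abs_of_neg (show c - y.2 < 0 by omega)]
    have := neg_abs_le (c + t - y.2)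
    omega

/-- The potential grows strictly along the line. -/
lemma Phi_line (X : Finset Pt) (l : Bool) (c d t : ℤ) (hc : Even c) (hd : ¬ Even d) (ht : Even t)
    (ht0 : t ≠ 0)
    (h1 : (l, c) ∉ X) (h2 : (l, d) ∉ X) (h3 : (l, c + t) ∉ X) (h4 : (l, d - t) ∉ X)
    (hP1 : -(2 * (eqc (Ev X) c + eqc (Od X) d)) <
      2 * ((ltc (Ev X) c - gtc (Ev X) c) + (gtc (Od X) d - ltc (Od X) d)) + 1)
    (hP2 : 2 * ((ltc (Ev X) c - gtc (Ev X) c) + (gtc (Od X) d - ltc (Od X) d)) + 1 <
      2 * (eqc (Ev X) c + eqc (Od X) d)) :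
    Phi (insert (l, c) (insert (l, d) X)) < Phi (insert (l, c + t) (insert (l, d - t) X)) := by
  have hct : Even (c + t) := hc.add ht
  have hdt : ¬ Even (d - t) := by
    rw [Int.not_even_iff_odd] at hd ⊢
    exact hd.sub_even ht
  rw [Phi_insert_two X (l, c) (l, d) hc hd h1 h2, Phi_insert_two X (l, c + t) (l, d - t) hct hdt h3 h4]
  have b1 := sum_abs_lower (Ev X) c t
  have b2 := sum_abs_lower (Od X) d (-t)
  rw [abs_neg, ← sub_eq_add_neg] at b2
  simp only
  set p := ltc (Ev X) c - gtc (Ev X) c with hp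
  set q := gtc (Od X) d - ltc (Od X) d with hq
  set m1 := eqc (Ev X) c
  set m2 := eqc (Od X) d
  have b2' : t * q + |t| * m2 ≤ (∑ y ∈ Od X, |d - t - y.2|) - ∑ y ∈ Od X, |d - y.2| := by
    refine le_trans (le_of_eq ?_) b2
    rw [hq]; ring
  have key : 0 < 2 * (t * p + |t| * m1) + 2 * (t * q + |t| * m2) + t := by
    rcases lt_or_gt_of_ne ht0 with h | h
    · rw [abs_of_neg h]
      nlinarith
    · rw [abs_of_pos h]
      nlinarith
  linarith

/-- order statistics -/
lemma rank {κ : Type*} (S : Finset κ) (v : κ → ℤ) (u : ℤ) (hu1 : 1 ≤ u) (hu2 : u ≤ 2 * (S.card : ℤ)) :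
    ∃ y ∈ S, 2 * ((S.filter (fun z => v z < v y)).card : ℤ) < u ∧
      u ≤ 2 * ((S.filter (fun z => v z ≤ v y)).card : ℤ) := by
  classical
  have hSne : S.Nonempty := by
    rw [Finset.nonempty_iff_ne_empty]; rintro rfl; simp at hu2; omega
  set S' := S.filter (fun y => u ≤ 2 * ((S.filter (fun z => v z ≤ v y)).card : ℤ)) with hS'
  have hne : S'.Nonempty := by
    obtain ⟨m, hm, hmax⟩ := Finset.exists_max_image S v hSne
    refine ⟨m, ?_⟩
    rw [hS', Finset.mem_filter]
    refine ⟨hm, ?_⟩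
    rw [Finset.filter_true_of_mem (fun z hz => hmax z hz)]
    exact hu2
  obtain ⟨y, hy, hmin⟩ := Finset.exists_min_image S' v hne
  rw [hS', Finset.mem_filter] at hy
  refine ⟨y, hy.1, ?_, hy.2⟩
  by_contra hcon
  push_neg at hcon
  have hne2 : (S.filter (fun z => v z < v y)).Nonempty := by
    rw [← Finset.card_pos]
    by_contra h
    have : (S.filter (fun z => v z < v y)).card = 0 := by omega
    rw [this] at hcon
    simp at hcon; omega
  obtain ⟨y', hy', hmax⟩ := Finset.exists_max_image _ v hne2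
  rw [Finset.mem_filter] at hy'
  have hsub : (S.filter (fun z => v z < v y)) ⊆ (S.filter (fun z => v z ≤ v y')) := by
    intro z hz
    rw [Finset.mem_filter]
    exact ⟨(Finset.mem_filter.1 hz).1, hmax z hz⟩
  have hcard := Finset.card_le_card hsub
  have hmem : y' ∈ S' := by
    rw [hS', Finset.mem_filter]
    refine ⟨hy'.1, ?_⟩
    have : ((S.filter (fun z => v z < v y)).card : ℤ) ≤ ((S.filter (fun z => v z ≤ v y')).card : ℤ) := by
      exact_mod_cast hcard
    omega
  have := hmin y' hmem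
  omega

end Pool.Agent.Helper10.SN
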